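import Pool.Agent.TH660.SC.Round

/-!
# Strongly polynomial minimisation of submodular functions: the rounds
-/

namespace Pool.Agent.TH660.SC

open Finset

variable {n : ℕ}

/-- Case distinction on a picked element. -/
def onPick {β : Type} (o : Option (Fin n)) (a : β) (b : Fin n → β) : β :=
  match o with
  | none => a
  | some w => b w

/-- the round, once the maximal marginal is known -/
def round1 (g : Finset (Fin n) → ℤ) (s : St n) (v0 : Fin n) (η : ℕ) : St n :=
  onPick (pick fun w => decide (2 * (parD n η : ℤ) *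
      dual (Phi g s.R ∅ univ) (parD n η) (parT n) w < -(parW n η : ℤ)))
    (onPick (pick fun w => decide ((parW n η : ℤ) < 2 * (parD n η : ℤ) *
        dual (Phi g s.R ∅ univ) (parD n η) (parT n) w))
      (bif decide ((η : ℤ) ≤ up g s.R v0) then
        onPick (pick fun w => decide (2 * (parD n η : ℤ) *
          dual (Phi g s.R (s.R v0) univ) (parD n η) (parT n) w < -(parW n η : ℤ)))
          s (fun w => arc s v0 w)
      else
        onPick (pick fun w => decide ((parW n η : ℤ) < 2 * (parD n η : ℤ) *
          dual (Phi g s.R ∅ (Tp s.R v0)) (parD n η) (parT n) w))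
          s (fun w => arc s w v0))
      (fun w => fixOut s w))
    (fun w => fixIn s w)

/-- one round -/
def round (f : Finset (Fin n) → ℤ) (s : St n) : St n :=
  onPick (pick fun v => decide (∀ u, eta (cur f s) s.R u ≤ eta (cur f s) s.R v)) s
    (fun v0 => bif decide (eta (cur f s) s.R v0 ≤ 0) then s else
      round1 (cur f s) s v0 (eta (cur f s) s.R v0).toNat)

variable {f : Finset (Fin n) → ℤ} {s : St n}

theorem closed_erase_R {R : Fin n → Finset (Fin n)} (h : IsPO R) (v : Fin n) :
    Closed R ((R v).erase v) := by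
  intro u hu x hx
  obtain ⟨h1, h2⟩ := mem_erase.1 hu
  rw [mem_erase]
  refine ⟨?_, h.trans _ _ h2 hx⟩
  rintro rfl
  exact h1 (h.anti _ _ h2 hx)

theorem closed_insert_Tp {R : Fin n → Finset (Fin n)} (h : IsPO R) (v : Fin n) :
    Closed R (insert v (Tp R v)) := by
  intro u hu x hx
  rw [mem_insert, mem_Tp]
  by_cases hxv : x = v
  · exact Or.inl hxv
  · refine Or.inr fun hv => ?_
    rcases mem_insert.1 hu with rfl | hu
    · exact hxv (h.anti _ _ hx hv)
    · exact mem_Tp.1 hu (h.trans _ _ hx hv)

theorem Phi_closed {g : Finset (Fin n) → ℤ} {R : Fin n → Finset (Fin n)} (h : IsPO R)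
    {A B S : Finset (Fin n)} (hS : Closed R ((S ∪ A) ∩ B)) :
    Phi g R A B S = g ((S ∪ A) ∩ B) := by
  unfold Phi
  exact ext_closed h hS

theorem sum_le_of {X : Fin n → ℤ} {W : ℤ} (hW : 0 ≤ W) {S : Finset (Fin n)}
    (h : ∀ w ∈ S, X w ≤ W) : ∑ w ∈ S, X w ≤ n * W := by
  refine (Finset.sum_le_sum h).trans ?_
  rw [sum_const, nsmul_eq_mul]
  have : (S.card : ℤ) ≤ n := by
    have := card_le_univ S
    rw [Fintype.card_fin] at this
    exact_mod_cast this
  exact mul_le_mul_of_nonneg_right this hW

theorem le_sum_of {X : Fin n → ℤ} {W : ℤ} (hW : 0 ≤ W) {S : Finset (Fin n)}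
    (h : ∀ w ∈ S, -W ≤ X w) : -(n * W) ≤ ∑ w ∈ S, X w := by
  have := sum_le_of (X := fun w => -X w) hW (S := S) fun w hw => by linarith [h w hw]
  rw [sum_neg_distrib] at this
  linarith

theorem round1_ok (hf : SubMod f) (h : Inv f s) {v0 : Fin n} {η : ℕ} (hη : 0 < η)
    (hmax : ∀ u, eta (cur f s) s.R u ≤ η) (hv0 : eta (cur f s) s.R v0 = η) :
    Inv f (round1 (cur f s) s v0 η) ∧ meas (round1 (cur f s) s v0 η) < meas s := by
  have hg : SubMod (cur f s) := cur_sub hf h.disj
  have po := h.po
  have hn : 0 < n := v0.pos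
  have hup : ∀ v, up (cur f s) s.R v ≤ η := fun v => (le_max_left _ _).trans (hmax v)
  have hlo : ∀ v, -(lo (cur f s) s.R v) ≤ η := fun v => (le_max_right _ _).trans (hmax v)
  have hpar := par_lt hn hη
  have hpar' : 3 * (n : ℤ) * parW n η < 2 * parD n η * parT n * η := by exact_mod_cast hpar
  have hG : ∀ A B (y : Fin n → ℕ), ∑ v, gr (Phi (cur f s) s.R A B) y v ^ 2 ≤
      ((4 * n ^ 3 * η ^ 2 : ℕ) : ℤ) := fun A B y => Phi_G hg po hup hlo A B y
  have hWe : (n : ℤ) * (parD n η : ℤ) ^ 2 + (parT n : ℤ) * ((4 * n ^ 3 * η ^ 2 : ℕ) : ℤ) =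
      (parW n η : ℤ) := by
    unfold parW
    push_cast
    ring
  have hW0 : (0 : ℤ) ≤ parW n η := by positivity
  have dead_dual : ∀ A B w, s.blk w = ∅ →
      dual (Phi (cur f s) s.R A B) (parD n η) (parT n) w = 0 := by
    intro A B w hw
    obtain ⟨d1, d2⟩ := h.dead w hw
    exact dual_dead (Phi_dead (cur_dead f hw) d1 d2 A B) _ _
  unfold round1
  rcases h1 : (pick fun w => decide (2 * (parD n η : ℤ) *
      dual (Phi (cur f s) s.R ∅ univ) (parD n η) (parT n) w < -(parW n η : ℤ))) with _ | w
  swap
  · -- fix in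
    have hw := pick_some h1
    rw [decide_eq_true_iff] at hw
    change Inv f (fixIn s w) ∧ meas (fixIn s w) < meas s
    refine ⟨fixIn_inv h fun M hM => ?_, meas_lt_of_alive (fixIn_alive ?_)⟩
    · refine mem_of_dual (Phi_sub hg po ∅ univ) (parD n η) _ (parT n) (hG ∅ univ)
        (fun Z => Phi_min po hM (h.valid M hM) (empty_subset _) (subset_univ _) Z) ?_
      rw [hWe]
      exact hw
    · intro hb
      rw [dead_dual _ _ _ hb] at hw
      linarith
  change Inv f (onPick (pick fun w => decide ((parW n η : ℤ) < 2 * (parD n η : ℤ) *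
        dual (Phi (cur f s) s.R ∅ univ) (parD n η) (parT n) w)) _ _) ∧
      meas (onPick (pick fun w => decide ((parW n η : ℤ) < 2 * (parD n η : ℤ) *
        dual (Phi (cur f s) s.R ∅ univ) (parD n η) (parT n) w)) _ _) < meas s
  rcases h2 : (pick fun w => decide ((parW n η : ℤ) < 2 * (parD n η : ℤ) *
        dual (Phi (cur f s) s.R ∅ univ) (parD n η) (parT n) w)) with _ | w
  swap
  · -- fix out
    have hw := pick_some h2
    rw [decide_eq_true_iff] at hw
    change Inv f (fixOut s w) ∧ meas (fixOut s w) < meas s
    refine ⟨fixOut_inv h fun M hM => ?_, meas_lt_of_alive (fixOut_alive ?_)⟩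
    · refine notMem_of_dual (Phi_sub hg po ∅ univ) (parD n η) _ (parT n) (hG ∅ univ)
        (fun Z => Phi_min po hM (h.valid M hM) (empty_subset _) (subset_univ _) Z) ?_
      rw [hWe]
      exact hw
    · intro hb
      rw [dead_dual _ _ _ hb] at hw
      linarith
  have b1 : ∀ w, -(parW n η : ℤ) ≤ 2 * (parD n η : ℤ) *
      dual (Phi (cur f s) s.R ∅ univ) (parD n η) (parT n) w := by
    intro w
    have := pick_none h1 w
    rw [decide_eq_false_iff_not] at this
    exact not_lt.1 this
  have b2 : ∀ w, 2 * (parD n η : ℤ) *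
      dual (Phi (cur f s) s.R ∅ univ) (parD n η) (parT n) w ≤ (parW n η : ℤ) := by
    intro w
    have := pick_none h2 w
    rw [decide_eq_false_iff_not] at this
    exact not_lt.1 this
  have e0 : Phi (cur f s) s.R ∅ univ ∅ = cur f s ∅ := by
    rw [Phi_closed po]
    · simp
    · simpa using closed_empty
  have cS : ∀ S, Closed s.R S → Phi (cur f s) s.R ∅ univ S = cur f s S := by
    intro S hS
    rw [Phi_closed po]
    · simp
    · simpa using hS
  -- lower bound for closed sets
  have lb : ∀ S, Closed s.R S → -((n : ℤ) * parW n η) ≤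
      2 * parD n η * (parT n * (cur f s S - cur f s ∅)) := by
    intro S hS
    have a1 := dual_le (Phi_sub hg po ∅ univ) (parD n η) (parT n) S
    rw [e0, cS S hS] at a1
    have a2 := le_sum_of hW0 (S := S) fun w _ => b1 w
    rw [← Finset.mul_sum] at a2
    have a3 : (2 : ℤ) * parD n η * ∑ v ∈ S, dual (Phi (cur f s) s.R ∅ univ) (parD n η) (parT n) v ≤
        2 * parD n η * (parT n * (cur f s S - cur f s ∅)) :=
      mul_le_mul_of_nonneg_left a1 (by positivity)
    linarith
  have ub : 2 * parD n η * (parT n * (cur f s univ - cur f s ∅)) ≤ (n : ℤ) * parW n η := by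
    have a1 := dual_univ (Phi (cur f s) s.R ∅ univ) (parD n η) (parT n)
    rw [e0, cS univ closed_univ] at a1
    have a2 := sum_le_of hW0 (S := univ) fun w _ => b2 w
    rw [← Finset.mul_sum, a1] at a2
    exact a2
  change Inv f (bif decide ((η : ℤ) ≤ up (cur f s) s.R v0) then _ else _) ∧
      meas (bif decide ((η : ℤ) ≤ up (cur f s) s.R v0) then _ else _) < meas s
  by_cases hc : (η : ℤ) ≤ up (cur f s) s.R v0
  · -- implication `v0 → w`
    simp only [hc, decide_true, cond_true]
    have hb0 : s.blk v0 ≠ ∅ := by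
      intro hb
      obtain ⟨d1, d2⟩ := h.dead v0 hb
      have : up (cur f s) s.R v0 = 0 := by
        unfold up
        rw [d1]
        have := cur_dead f hb ∅
        simp only [insert_empty_eq] at this
        rw [this]
        simp
      rw [this] at hc
      have : (0 : ℤ) < η := by exact_mod_cast hη
      linarith
    rcases h3 : (pick fun w => decide (2 * (parD n η : ℤ) *
          dual (Phi (cur f s) s.R (s.R v0) univ) (parD n η) (parT n) w < -(parW n η : ℤ))) with _ | w
    · exfalso
      have b3 : ∀ w ∈ (univ : Finset (Fin n)), -(parW n η : ℤ) ≤ 2 * (parD n η : ℤ) *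
          dual (Phi (cur f s) s.R (s.R v0) univ) (parD n η) (parT n) w := by
        intro w _
        have := pick_none h3 w
        rw [decide_eq_false_iff_not] at this
        exact not_lt.1 this
      have a2 := le_sum_of hW0 b3
      rw [← Finset.mul_sum, dual_univ] at a2
      have e1 : Phi (cur f s) s.R (s.R v0) univ univ = cur f s univ := by
        have e : (univ ∪ s.R v0) ∩ univ = univ := by
          ext x; simp
        rw [Phi_closed po]
        · rw [e]
        · rw [e]; exact closed_univ
      have e2 : Phi (cur f s) s.R (s.R v0) univ ∅ = cur f s (s.R v0) := by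
        rw [Phi_closed po]
        · simp
        · simpa using closed_R po v0
      rw [e1, e2] at a2
      have a3 := lb _ (closed_erase_R po v0)
      have a4 : cur f s (s.R v0) - cur f s ((s.R v0).erase v0) ≥ η := hc
      have a5 : 2 * (parD n η : ℤ) * (parT n * (η : ℤ)) ≤
          2 * parD n η * (parT n * (cur f s (s.R v0) - cur f s ((s.R v0).erase v0))) :=
        mul_le_mul_of_nonneg_left (mul_le_mul_of_nonneg_left a4 (by positivity)) (by positivity)
      nlinarith
    · have hw := pick_some h3
      rw [decide_eq_true_iff] at hw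
      change Inv f (arc s v0 w) ∧ meas (arc s v0 w) < meas s
      refine arc_ok h hb0 ?_ ?_ ?_
      · intro hb
        rw [dead_dual _ _ _ hb] at hw
        linarith
      · intro hb
        rw [dual_dead (Phi_memA hb univ)] at hw
        linarith
      · intro M hM hv
        have hMc := h.valid M hM
        refine mem_of_dual (Phi_sub hg po _ univ) (parD n η) _ (parT n) (hG _ univ)
          (fun Z => Phi_min po hM hMc (hMc v0 hv) (subset_univ _) Z) ?_
        rw [hWe]
        exact hw
  · -- implication `w → v0`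
    simp only [hc, decide_false, cond_false]
    have hlo0 : -(lo (cur f s) s.R v0) = η := by
      unfold eta at hv0
      rcases max_choice (up (cur f s) s.R v0) (-(lo (cur f s) s.R v0)) with e | e
      · rw [e] at hv0
        exact absurd hv0.ge hc
      · rw [e] at hv0
        exact hv0
    have hb0 : s.blk v0 ≠ ∅ := by
      intro hb
      have : lo (cur f s) s.R v0 = 0 := by
        unfold lo
        rw [cur_dead f hb, sub_self]
      rw [this] at hlo0
      have : (0 : ℤ) < η := by exact_mod_cast hη
      linarith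
    rcases h3 : (pick fun w => decide ((parW n η : ℤ) < 2 * (parD n η : ℤ) *
          dual (Phi (cur f s) s.R ∅ (Tp s.R v0)) (parD n η) (parT n) w)) with _ | w
    · exfalso
      have b3 : ∀ w ∈ (univ : Finset (Fin n)), 2 * (parD n η : ℤ) *
          dual (Phi (cur f s) s.R ∅ (Tp s.R v0)) (parD n η) (parT n) w ≤ (parW n η : ℤ) := by
        intro w _
        have := pick_none h3 w
        rw [decide_eq_false_iff_not] at this
        exact not_lt.1 this
      have a2 := sum_le_of hW0 b3
      rw [← Finset.mul_sum, dual_univ] at a2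
      have e1 : Phi (cur f s) s.R ∅ (Tp s.R v0) univ = cur f s (Tp s.R v0) := by
        rw [Phi_closed po]
        · simp
        · simpa using closed_Tp po v0
      have e2 : Phi (cur f s) s.R ∅ (Tp s.R v0) ∅ = cur f s ∅ := by
        rw [Phi_closed po]
        · simp
        · simpa using closed_empty
      rw [e1, e2] at a2
      have a3 := lb _ (closed_insert_Tp po v0)
      have a4 : cur f s (Tp s.R v0) - cur f s (insert v0 (Tp s.R v0)) = η := by
        rw [← hlo0]
        unfold lo
        ring
      have a5 : 2 * (parD n η : ℤ) * (parT n * (cur f s (Tp s.R v0) - cur f s ∅)) =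
          2 * parD n η * (parT n * (cur f s (insert v0 (Tp s.R v0)) - cur f s ∅)) +
          2 * parD n η * parT n * η := by
        rw [← a4]
        ring
      nlinarith
    · have hw := pick_some h3
      rw [decide_eq_true_iff] at hw
      change Inv f (arc s w v0) ∧ meas (arc s w v0) < meas s
      refine arc_ok h ?_ hb0 ?_ ?_
      · intro hb
        rw [dead_dual _ _ _ hb] at hw
        linarith
      · intro hb
        rw [dual_dead (Phi_notMemB (fun hT => mem_Tp.1 hT hb) ∅)] at hw
        linarith
      · intro M hM hwM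
        by_contra hv
        have hMc := h.valid M hM
        refine notMem_of_dual (Phi_sub hg po ∅ _) (parD n η) _ (parT n) (hG ∅ _)
          (fun Z => Phi_min po hM hMc (empty_subset _)
            (fun u hu => mem_Tp.2 fun hvu => hv (hMc u hu hvu)) Z) ?_ hwM
        rw [hWe]
        exact hw

theorem done_of (hf : SubMod f) (h : Inv f s) (hη : ∀ v, eta (cur f s) s.R v ≤ 0) :
    ∀ Z, cur f s ∅ ≤ f Z := by
  obtain ⟨M, hM⟩ := h.minp
  have hg : SubMod (cur f s) := cur_sub hf h.disj
  have hMc := h.valid M (curMin_of h hM)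
  have hcc : ∀ v, cc (cur f s) s.R v = 0 := by
    intro v
    unfold cc
    exact max_eq_left ((le_max_right _ _).trans (hη v))
  have := hh_mono hg h.po closed_empty hMc (empty_subset M)
  unfold hh at this
  simp only [hcc, sum_const_zero, add_zero] at this
  exact fun Z => this.trans (hM Z)

theorem round_ok (hf : SubMod f) (h : Inv f s) :
    (round f s = s ∧ ∀ v, eta (cur f s) s.R v ≤ 0) ∨
      (Inv f (round f s) ∧ meas (round f s) < meas s) := by
  unfold round
  rcases h1 : (pick fun v => decide (∀ u, eta (cur f s) s.R u ≤ eta (cur f s) s.R v)) with _ | v0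
  · left
    refine ⟨rfl, ?_⟩
    intro v
    exfalso
    obtain ⟨w, _, hw⟩ := exists_max_image (univ : Finset (Fin n)) (eta (cur f s) s.R)
      ⟨v, mem_univ _⟩
    have := pick_none h1 w
    rw [decide_eq_false_iff_not] at this
    exact this fun u => hw u (mem_univ _)
  · have hmax := pick_some h1
    rw [decide_eq_true_iff] at hmax
    change (bif decide (eta (cur f s) s.R v0 ≤ 0) then s else _) = s ∧ _ ∨
      Inv f (bif decide (eta (cur f s) s.R v0 ≤ 0) then s else _) ∧
      meas (bif decide (eta (cur f s) s.R v0 ≤ 0) then s else _) < meas s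
    by_cases hc : eta (cur f s) s.R v0 ≤ 0
    · left
      simp only [hc, decide_true, cond_true]
      exact ⟨trivial, fun v => (hmax v).trans hc⟩
    · right
      simp only [hc, decide_false, cond_false]
      have e : ((eta (cur f s) s.R v0).toNat : ℤ) = eta (cur f s) s.R v0 :=
        Int.toNat_of_nonneg (by omega)
      refine round1_ok hf h (by omega) ?_ e.symm
      intro u
      rw [e]
      exact hmax u

theorem round_done (h : ∀ v, eta (cur f s) s.R v ≤ 0) : round f s = s := by
  unfold round
  rcases h1 : (pick fun v => decide (∀ u, eta (cur f s) s.R u ≤ eta (cur f s) s.R v)) with _ | v0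
  · rfl
  · change (bif decide (eta (cur f s) s.R v0 ≤ 0) then s else _) = s
    simp only [h v0, decide_true, cond_true]

/-- the initial state -/
def init (n : ℕ) : St n := ⟨∅, fun v => {v}, fun v => {v}⟩

theorem cur_init (f : Finset (Fin n) → ℤ) (X : Finset (Fin n)) : cur f (init n) X = f X := by
  unfold cur init
  congr 1
  ext u
  simp [mem_cl]

theorem init_inv (f : Finset (Fin n) → ℤ) : Inv f (init n) := by
  refine ⟨?_, ?_, isPO_single, ?_, ?_, fun M _ => closed_single M⟩
  · intro u v huv
    simpa [init] using huv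
  · intro v
    simp [init]
  · intro d hd
    simp [init] at hd
  · obtain ⟨M, _, hM⟩ := exists_min_image (univ : Finset (Finset (Fin n))) f ⟨∅, mem_univ _⟩
    refine ⟨M, fun Z => ?_⟩
    rw [cur_init]
    exact hM Z (mem_univ _)

theorem iterate_ok (hf : SubMod f) (k : ℕ) :
    Inv f ((round f)^[k] (init n)) ∧ (meas ((round f)^[k] (init n)) + k ≤ meas (init n) ∨
      ∀ v, eta (cur f ((round f)^[k] (init n))) ((round f)^[k] (init n)).R v ≤ 0) := by
  induction k with
  | zero => exact ⟨init_inv f, Or.inl le_rfl⟩
  | succ k ih =>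
    obtain ⟨h1, h2⟩ := ih
    rw [Function.iterate_succ_apply']
    rcases h2 with h2 | h2
    · rcases round_ok hf h1 with ⟨e, h3⟩ | ⟨h3, h4⟩
      · rw [e]
        exact ⟨h1, Or.inr h3⟩
      · exact ⟨h3, Or.inl (by omega)⟩
    · rw [round_done h2]
      exact ⟨h1, Or.inr h2⟩

/-- the number of rounds -/
def rounds (n : ℕ) : ℕ := (n + 1) * (n ^ 2 + 1)

theorem meas_init_lt : meas (init n) < rounds n := by
  unfold meas rounds
  have h1 : alive (init n) ≤ n := by
    unfold alive
    have := card_le_univ (univ.filter fun v => (init n).blk v ≠ ∅)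
    simpa using this
  have h2 : alive (init n) * (n ^ 2 + 1) ≤ n * (n ^ 2 + 1) := Nat.mul_le_mul_right _ h1
  have h3 : (n + 1) * (n ^ 2 + 1) = n * (n ^ 2 + 1) + (n ^ 2 + 1) := by ring
  omega

/-- the computed minimum -/
def minval (f : Finset (Fin n) → ℤ) : ℤ := cur f ((round f)^[rounds n] (init n)) ∅

theorem minval_le (hf : SubMod f) (Z : Finset (Fin n)) : minval f ≤ f Z := by
  obtain ⟨h1, h2⟩ := iterate_ok (f := f) hf (rounds n)
  refine done_of hf h1 ?_ Z
  rcases h2 with h2 | h2
  · have := meas_init_lt (n := n)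
    omega
  · exact h2

theorem exists_minval (f : Finset (Fin n) → ℤ) : ∃ Z, minval f = f Z := ⟨_, rfl⟩

theorem le_minval_iff (hf : SubMod f) (m : ℤ) : m ≤ minval f ↔ ∀ Z, m ≤ f Z := by
  constructor
  · intro h Z
    exact h.trans (minval_le hf Z)
  · intro h
    obtain ⟨Z, hZ⟩ := exists_minval f
    rw [hZ]
    exact h Z

end Pool.Agent.TH660.SC
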