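import Pool.Agent.TH660.SC.Low

/-!
# The algorithm on lists
-/

namespace Pool.Agent.TH660.SC

open Finset Pool.Agent.H663R2.Skew

variable {n : ℕ}

/-- The characteristic vector of a set. -/
def code (B : Finset (Fin n)) : List Bool := List.ofFn fun i => decide (i ∈ B)

theorem code_length (B : Finset (Fin n)) : (code B).length = n := by simp [code]

theorem getD_ofFn {β : Type*} (f : Fin n → β) (i : ℕ) (d : β) (h : i < n) :
    (List.ofFn f).getD i d = f ⟨i, h⟩ := by
  rw [List.getD_eq_getElem?_getD, List.getElem?_ofFn]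
  simp [h]

theorem map_range {β : Type*} (f : ℕ → β) : (List.range n).map f = List.ofFn fun i : Fin n => f i := by
  apply List.ext_getElem
  · simp
  · intro i h1 h2
    simp

theorem map_range_congr {β : Type*} {f : ℕ → β} {g : Fin n → β} (h : ∀ i : Fin n, f i = g i) :
    (List.range n).map f = List.ofFn g := by
  rw [map_range]
  congr 1
  funext i
  exact h i

/-- predecessors -/
def prdL (n : ℕ) (y : List ℕ) (v : ℕ) : List Bool :=
  (List.range n).map fun u => decide (y.getD v 0 < y.getD u 0) ||
    (decide (y.getD u 0 = y.getD v 0) && decide (u < v))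

/-- insertion -/
def insL (n : ℕ) (B : List Bool) (v : ℕ) : List Bool :=
  (List.range n).map fun u => B.getD u false || decide (u = v)

/-- deletion -/
def ersL (n : ℕ) (B : List Bool) (v : ℕ) : List Bool :=
  (List.range n).map fun u => B.getD u false && !decide (u = v)

/-- complement -/
def cmpL (n : ℕ) (B : List Bool) : List Bool :=
  (List.range n).map fun u => !(B.getD u false)

/-- the whole set -/
def allL (n : ℕ) : List Bool := (List.range n).map fun _ => true

/-- the empty set -/
def empL (n : ℕ) : List Bool := (List.range n).map fun _ => false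

/-- size of the intersection -/
def cntL (n : ℕ) (B X : List Bool) : ℕ :=
  ((List.range n).filter fun u => B.getD u false && X.getD u false).length

theorem prdL_eq (y : Fin n → ℕ) (v : Fin n) : prdL n (List.ofFn y) v = code (prd y v) := by
  unfold prdL code
  apply map_range_congr
  intro i
  rw [getD_ofFn _ _ _ i.isLt, getD_ofFn _ _ _ v.isLt]
  unfold prd
  rw [Bool.eq_iff_iff]
  simp

theorem insL_eq (B : Finset (Fin n)) (v : Fin n) : insL n (code B) v = code (insert v B) := by
  unfold insL code
  apply map_range_congr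
  intro i
  rw [getD_ofFn _ _ _ i.isLt, Bool.eq_iff_iff]
  simp [Fin.ext_iff, or_comm]

theorem ersL_eq (B : Finset (Fin n)) (v : Fin n) : ersL n (code B) v = code (B.erase v) := by
  unfold ersL code
  apply map_range_congr
  intro i
  rw [getD_ofFn _ _ _ i.isLt, Bool.eq_iff_iff]
  simp [Fin.ext_iff, and_comm]

theorem cmpL_eq (B : Finset (Fin n)) : cmpL n (code B) = code (univ \ B) := by
  unfold cmpL code
  apply map_range_congr
  intro i
  rw [getD_ofFn _ _ _ i.isLt, Bool.eq_iff_iff]
  simp

theorem allL_eq : allL n = code (univ : Finset (Fin n)) := by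
  unfold allL code
  apply map_range_congr
  intro i
  simp

theorem empL_eq : empL n = code (∅ : Finset (Fin n)) := by
  unfold empL code
  apply map_range_congr
  intro i
  simp

theorem cntL_eq (B X : Finset (Fin n)) : cntL n (code B) (code X) = (B ∩ X).card := by
  unfold cntL
  have h1 : (List.range n) = (List.finRange n).map (fun i : Fin n => (i : ℕ)) := by
    apply List.ext_getElem
    · simp
    · intro i h1 h2
      simp
  rw [h1, List.filter_map, List.length_map]
  have h2 : ((List.finRange n).filter ((fun u => (code B).getD u false && (code X).getD u false) ∘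
      fun i : Fin n => (i : ℕ))) = (List.finRange n).filter (fun i => decide (i ∈ B ∩ X)) := by
    apply List.filter_congr
    intro i _
    simp only [Function.comp_def, code]
    rw [getD_ofFn _ _ _ i.isLt, getD_ofFn _ _ _ i.isLt, Bool.eq_iff_iff]
    simp
  rw [h2]
  have h3 : B ∩ X = ((List.finRange n).filter (fun i => decide (i ∈ B ∩ X))).toFinset := by
    ext x; simp
  conv_rhs => rw [h3]
  rw [List.toFinset_card_of_nodup]
  exact (List.nodup_finRange n).filter _

/-- greedy cover -/
def grdyL (n : ℕ) (test : List Bool → Bool) (X : List Bool) : List Bool :=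
  (List.range n).foldl (fun B v => bif X.getD v false && test (ersL n B v) then ersL n B v else B)
    (allL n)

theorem grdyL_eq {testL : List Bool → Bool} {test : Finset (Fin n) → Bool}
    (h : ∀ B, testL (code B) = test B) (X : Finset (Fin n)) :
    grdyL n testL (code X) = code (grdy test X (List.finRange n)) := by
  unfold grdyL grdy
  have h1 : (List.range n) = (List.finRange n).map (fun i : Fin n => (i : ℕ)) := by
    apply List.ext_getElem
    · simp
    · intro i h1 h2
      simp
  rw [h1, List.foldl_map, allL_eq]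
  have key : ∀ (l : List (Fin n)) (B : Finset (Fin n)),
      List.foldl (fun (x : List Bool) (y : Fin n) =>
        bif (code X).getD (y : ℕ) false && testL (ersL n x y) then ersL n x y else x) (code B) l =
      code (List.foldl (fun B v => if decide (v ∈ X) && test (B.erase v) then B.erase v else B)
        B l) := by
    intro l
    induction l with
    | nil => intro B; rfl
    | cons a l ih =>
      intro B
      rw [List.foldl_cons, List.foldl_cons, ← ih]
      congr 1
      have e1 : (code X).getD (a : ℕ) false = decide (a ∈ X) := by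
        unfold code
        rw [getD_ofFn _ _ _ a.isLt]
      rw [ersL_eq, h, e1]
      cases hc : (decide (a ∈ X) && test (B.erase a)) <;> simp
  exact key _ _

/-- the function to be maximised, on lists -/
def hfL (n : ℕ) (t₁ t₂ : List Bool → Bool) (X : List Bool) : ℕ :=
  cntL n (grdyL n t₁ X) X + cntL n (grdyL n t₂ (cmpL n X)) (cmpL n X)

theorem hfL_eq {q₁ q₂ : Finset (Fin n) → ℤ} (h₁ : SkewOn univ q₁) (h₂ : SkewOn univ q₂)
    (hU₁ : Cov univ q₁ univ) (hU₂ : Cov univ q₂ univ) {t₁ t₂ : List Bool → Bool}
    (ht₁ : ∀ B, t₁ (code B) = true ↔ Cov univ q₁ B)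
    (ht₂ : ∀ B, t₂ (code B) = true ↔ Cov univ q₂ B) (X : Finset (Fin n)) :
    hfL n t₁ t₂ (code X) = Hf q₁ q₂ X := by
  unfold hfL Hf
  rw [cmpL_eq, grdyL_eq (test := fun B => t₁ (code B)) (fun B => rfl),
    grdyL_eq (test := fun B => t₂ (code B)) (fun B => rfl), cntL_eq, cntL_eq,
    grdy_card h₁ ht₁ hU₁, grdy_card h₂ ht₂ hU₂]

/-- one step of the descent, on lists -/
def stepL (n : ℕ) (H : List Bool → ℕ) (D : ℕ) (y : List ℕ) : List ℕ :=
  (List.range n).map fun v => min D (y.getD v 0 + H (insL n (prdL n y v) v) - H (prdL n y v))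

/-- the test at a point, on lists -/
def okL (n : ℕ) (H : List Bool → ℕ) (c : ℕ) (y : List ℕ) : Bool :=
  (List.range n).all fun v => decide (H (insL n (prdL n y v) v) ≤ c)

theorem stepL_eq {HL : List Bool → ℕ} {H : Finset (Fin n) → ℕ} (h : ∀ X, HL (code X) = H X)
    (D : ℕ) (y : Fin n → ℕ) : stepL n HL D (List.ofFn y) = List.ofFn (nstep H D y) := by
  unfold stepL
  apply map_range_congr
  intro i
  rw [prdL_eq, insL_eq, h, h, getD_ofFn _ _ _ i.isLt]
  rfl

theorem okL_iff {HL : List Bool → ℕ} {H : Finset (Fin n) → ℕ} (h : ∀ X, HL (code X) = H X)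
    (c : ℕ) (y : Fin n → ℕ) : okL n HL c (List.ofFn y) = true ↔ okAt H c y := by
  unfold okL okAt
  rw [List.all_eq_true]
  constructor
  · intro h1 v
    have := h1 v (List.mem_range.2 v.isLt)
    rw [prdL_eq, insL_eq, h] at this
    simpa using this
  · intro h1 v hv
    have hv' := List.mem_range.1 hv
    have := h1 ⟨v, hv'⟩
    have e := prdL_eq y ⟨v, hv'⟩
    have e2 := insL_eq (prd y ⟨v, hv'⟩) ⟨v, hv'⟩
    dsimp only at e e2
    rw [e, e2, h]
    simpa using this

/-- one round: the point and the conjunction of the tests -/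
def roundL (n : ℕ) (H : List Bool → ℕ) (D c : ℕ) (s : List ℕ × Bool) : List ℕ × Bool :=
  (stepL n H D s.1, s.2 && okL n H c s.1)

/-- the decision procedure -/
def decL (n : ℕ) (H : List Bool → ℕ) (D T c : ℕ) : Bool :=
  ((roundL n H D c)^[T] ((List.range n).map (fun _ => 0), decide (H (empL n) ≤ c))).2

theorem roundL_iterate {HL : List Bool → ℕ} {H : Finset (Fin n) → ℕ}
    (h : ∀ X, HL (code X) = H X) (D c : ℕ) (b : Bool) (t : ℕ) :
    (roundL n HL D c)^[t] ((List.range n).map (fun _ => 0), b) =
      (List.ofFn ((nstep H D)^[t] fun _ => 0),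
        b && (List.range t).all fun s => okL n HL c (List.ofFn ((nstep H D)^[s] fun _ => 0))) := by
  induction t with
  | zero =>
    simp only [Function.iterate_zero, id, List.range_zero, List.all_nil, Bool.and_true]
    rw [map_range]
  | succ t ih =>
    rw [Function.iterate_succ_apply', ih, Function.iterate_succ_apply']
    unfold roundL
    dsimp only
    rw [stepL_eq h, List.range_succ, List.all_append, Bool.and_assoc]
    simp

theorem decL_iff {HL : List Bool → ℕ} {H : Finset (Fin n) → ℕ} (h : ∀ X, HL (code X) = H X)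
    (hH : SubMod fun X => -(H X : ℤ))
    (G D T : ℕ) (hG : ∀ y : Fin n → ℕ, ∑ v, gr (fun X => -(H X : ℤ)) y v ^ 2 ≤ (G : ℤ))
    (hT : n * D ^ 2 + T * G < 2 * T * D) (c : ℕ) :
    decL n HL D T c = true ↔ ∀ X, H X ≤ c := by
  rw [all_le_iff hH G D T hG hT c]
  unfold decL
  rw [roundL_iterate h]
  dsimp only
  rw [Bool.and_eq_true, decide_eq_true_iff, empL_eq, h, List.all_eq_true]
  constructor
  · rintro ⟨h1, h2⟩
    exact ⟨h1, fun t ht => (okL_iff h c _).1 (h2 t (List.mem_range.2 ht))⟩
  · rintro ⟨h1, h2⟩
    exact ⟨h1, fun t ht => (okL_iff h c _).2 (h2 t (List.mem_range.1 ht))⟩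

end Pool.Agent.TH660.SC
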