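import Pool.Agent.TH660.SC.Alg
import Pool.Agent.TH660.SC.Lists

/-!
# Strongly polynomial minimisation of submodular functions, on lists
-/

namespace Pool.Agent.TH660.SC

open Finset

variable {n : ℕ}

/-- the code of a family of sets -/
def codeF (b : Fin n → Finset (Fin n)) : List (List Bool) := List.ofFn fun v => code (b v)

/-- closure -/
def clL (n : ℕ) (b : List (List Bool)) (X : List Bool) : List Bool :=
  (List.range n).map fun u => (List.range n).any fun v =>
    X.getD v false && (b.getD v []).getD u false

/-- union -/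
def orL (n : ℕ) (A B : List Bool) : List Bool :=
  (List.range n).map fun u => A.getD u false || B.getD u false

/-- intersection -/
def andL (n : ℕ) (A B : List Bool) : List Bool :=
  (List.range n).map fun u => A.getD u false && B.getD u false

/-- the elements which do not imply `v` -/
def TpL (n : ℕ) (R : List (List Bool)) (v : ℕ) : List Bool :=
  (List.range n).map fun u => !((R.getD u []).getD v false)

/-- the singletons -/
def sglL (n : ℕ) : List (List Bool) := (List.range n).map fun v => insL n (empL n) v

/-- upper marginal -/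
def upL (n : ℕ) (g : List Bool → ℤ) (R : List (List Bool)) (v : ℕ) : ℤ :=
  g (R.getD v []) - g (ersL n (R.getD v []) v)

/-- lower marginal -/
def loL (n : ℕ) (g : List Bool → ℤ) (R : List (List Bool)) (v : ℕ) : ℤ :=
  g (insL n (TpL n R v) v) - g (TpL n R v)

/-- weights -/
def ccL (n : ℕ) (g : List Bool → ℤ) (R : List (List Bool)) (v : ℕ) : ℤ := max 0 (-(loL n g R v))

/-- size of a marginal -/
def etaL (n : ℕ) (g : List Bool → ℤ) (R : List (List Bool)) (v : ℕ) : ℤ :=
  max (upL n g R v) (-(loL n g R v))

/-- extension -/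
def extL (n : ℕ) (g : List Bool → ℤ) (R : List (List Bool)) (X : List Bool) : ℤ :=
  g (clL n R X) + ((List.range n).map fun w =>
    bif (clL n R X).getD w false && !(X.getD w false) then ccL n g R w else 0).sum

/-- extension on an interval -/
def PhiL (n : ℕ) (g : List Bool → ℤ) (R : List (List Bool)) (A B X : List Bool) : ℤ :=
  extL n g R (andL n (orL n X A) B)

/-- greedy vector -/
def grL (n : ℕ) (F : List Bool → ℤ) (y : List ℕ) (v : ℕ) : ℤ :=
  F (insL n (prdL n y v) v) - F (prdL n y v)

/-- step -/
def stepZ (n : ℕ) (F : List Bool → ℤ) (D : ℕ) (y : List ℕ) : List ℕ :=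
  (List.range n).map fun v => min D (((y.getD v 0 : ℕ) : ℤ) - grL n F y v).toNat

/-- the iterates -/
def itersL (n : ℕ) (F : List Bool → ℤ) (D T : ℕ) : List ℕ × List (List ℕ) :=
  (fun s : List ℕ × List (List ℕ) => (stepZ n F D s.1, s.1 :: s.2))^[T]
    ((List.range n).map (fun _ => 0), [])

/-- the dual vector -/
def dualL (n : ℕ) (F : List Bool → ℤ) (D T v : ℕ) : ℤ :=
  ((itersL n F D T).2.map fun y => grL n F y v).sum

theorem getD_code (X : Finset (Fin n)) (i : Fin n) (d : Bool) :
    (code X).getD (i : ℕ) d = decide (i ∈ X) := by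
  unfold code
  rw [getD_ofFn _ _ _ i.isLt]

theorem getD_codeF (b : Fin n → Finset (Fin n)) (i : Fin n) (d : List Bool) :
    (codeF b).getD (i : ℕ) d = code (b i) := by
  unfold codeF
  rw [getD_ofFn _ _ _ i.isLt]

theorem range_any (p : ℕ → Bool) :
    (List.range n).any p = decide (∃ i : Fin n, p i = true) := by
  rw [Bool.eq_iff_iff, List.any_eq_true, decide_eq_true_iff]
  constructor
  · rintro ⟨x, hx, h⟩
    exact ⟨⟨x, List.mem_range.1 hx⟩, h⟩
  · rintro ⟨i, h⟩
    exact ⟨i, List.mem_range.2 i.isLt, h⟩

theorem clL_eq (b : Fin n → Finset (Fin n)) (X : Finset (Fin n)) :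
    clL n (codeF b) (code X) = code (cl b X) := by
  unfold clL
  rw [show code (cl b X) = List.ofFn fun i => decide (i ∈ cl b X) from rfl]
  apply map_range_congr
  intro i
  rw [range_any, Bool.eq_iff_iff, decide_eq_true_iff, decide_eq_true_iff, mem_cl]
  constructor
  · rintro ⟨v, hv⟩
    rw [getD_code, getD_codeF, getD_code] at hv
    simp only [Bool.and_eq_true, decide_eq_true_eq] at hv
    exact ⟨v, hv⟩
  · rintro ⟨v, hv⟩
    refine ⟨v, ?_⟩
    rw [getD_code, getD_codeF, getD_code]
    simp only [Bool.and_eq_true, decide_eq_true_eq]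
    exact hv

theorem orL_eq (A B : Finset (Fin n)) : orL n (code A) (code B) = code (A ∪ B) := by
  unfold orL
  rw [show code (A ∪ B) = List.ofFn fun i => decide (i ∈ A ∪ B) from rfl]
  apply map_range_congr
  intro i
  rw [getD_code, getD_code]
  simp [Bool.eq_iff_iff]

theorem andL_eq (A B : Finset (Fin n)) : andL n (code A) (code B) = code (A ∩ B) := by
  unfold andL
  rw [show code (A ∩ B) = List.ofFn fun i => decide (i ∈ A ∩ B) from rfl]
  apply map_range_congr
  intro i
  rw [getD_code, getD_code]
  simp [Bool.eq_iff_iff]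

theorem TpL_eq (R : Fin n → Finset (Fin n)) (v : Fin n) :
    TpL n (codeF R) v = code (Tp R v) := by
  unfold TpL
  rw [show code (Tp R v) = List.ofFn fun i => decide (i ∈ Tp R v) from rfl]
  apply map_range_congr
  intro i
  rw [getD_codeF, getD_code]
  simp [Bool.eq_iff_iff, mem_Tp]

theorem sglL_eq : sglL n = codeF (fun v : Fin n => {v}) := by
  unfold sglL codeF
  apply map_range_congr
  intro i
  rw [empL_eq, insL_eq]
  simp

section
variable {gL : List Bool → ℤ} {g : Finset (Fin n) → ℤ}

theorem upL_eq (h : ∀ X, gL (code X) = g X) (R : Fin n → Finset (Fin n)) (v : Fin n) :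
    upL n gL (codeF R) v = up g R v := by
  unfold upL up
  rw [getD_codeF, ersL_eq, h, h]

theorem loL_eq (h : ∀ X, gL (code X) = g X) (R : Fin n → Finset (Fin n)) (v : Fin n) :
    loL n gL (codeF R) v = lo g R v := by
  unfold loL lo
  rw [TpL_eq, insL_eq, h, h]

theorem ccL_eq (h : ∀ X, gL (code X) = g X) (R : Fin n → Finset (Fin n)) (v : Fin n) :
    ccL n gL (codeF R) v = cc g R v := by
  unfold ccL cc
  rw [loL_eq h]

theorem etaL_eq (h : ∀ X, gL (code X) = g X) (R : Fin n → Finset (Fin n)) (v : Fin n) :
    etaL n gL (codeF R) v = eta g R v := by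
  unfold etaL eta
  rw [loL_eq h, upL_eq h]

theorem sum_range_map (F : ℕ → ℤ) : ((List.range n).map F).sum = ∑ i : Fin n, F i := by
  rw [map_range, List.sum_ofFn]

theorem extL_eq (h : ∀ X, gL (code X) = g X) (R : Fin n → Finset (Fin n)) (X : Finset (Fin n)) :
    extL n gL (codeF R) (code X) = ext g R X := by
  unfold extL ext
  rw [clL_eq, h, sum_range_map]
  congr 1
  rw [← Finset.sum_filter_add_sum_filter_not univ (fun w => w ∈ cl R X \ X)]
  have e1 : univ.filter (fun w => w ∈ cl R X \ X) = cl R X \ X := by
    ext x; simp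
  rw [e1]
  have e2 : ∑ i ∈ univ.filter (fun w => ¬ w ∈ cl R X \ X),
      (bif (code (cl R X)).getD (i : ℕ) false && !(code X).getD (i : ℕ) false then
        ccL n gL (codeF R) i else 0) = 0 := by
    apply Finset.sum_eq_zero
    intro i hi
    rw [mem_filter, mem_sdiff] at hi
    rw [getD_code, getD_code]
    have : (decide (i ∈ cl R X) && !decide (i ∈ X)) = false := by
      rw [Bool.eq_false_iff]
      intro h
      simp only [Bool.and_eq_true, decide_eq_true_eq, Bool.not_eq_true', decide_eq_false_iff_not] at h
      exact hi.2 h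
    rw [this]
    rfl
  rw [e2, add_zero]
  apply Finset.sum_congr rfl
  intro i hi
  rw [mem_sdiff] at hi
  rw [getD_code, getD_code]
  simp only [hi.1, hi.2, decide_true, decide_false, Bool.not_false, Bool.and_self, cond_true]
  exact ccL_eq h R i

theorem PhiL_eq (h : ∀ X, gL (code X) = g X) (R : Fin n → Finset (Fin n))
    (A B X : Finset (Fin n)) :
    PhiL n gL (codeF R) (code A) (code B) (code X) = Phi g R A B X := by
  unfold PhiL Phi
  rw [orL_eq, andL_eq, extL_eq h]

theorem grL_eq (h : ∀ X, gL (code X) = g X) (y : Fin n → ℕ) (v : Fin n) :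
    grL n gL (List.ofFn y) v = gr g y v := by
  unfold grL gr
  rw [prdL_eq, insL_eq, h, h]

theorem stepZ_eq (h : ∀ X, gL (code X) = g X) (D : ℕ) (y : Fin n → ℕ) :
    stepZ n gL D (List.ofFn y) = List.ofFn (step g D y) := by
  unfold stepZ
  apply map_range_congr
  intro i
  rw [grL_eq h, getD_ofFn _ _ _ i.isLt]
  rfl

theorem itersL_eq (h : ∀ X, gL (code X) = g X) (D T : ℕ) :
    itersL n gL D T = (List.ofFn (iter g D T),
      ((List.range T).map fun t => List.ofFn (iter g D t)).reverse) := by
  unfold itersL
  induction T with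
  | zero =>
    simp only [Function.iterate_zero, id, List.range_zero, List.map_nil, List.reverse_nil]
    rw [map_range]
    rfl
  | succ T ih =>
    rw [Function.iterate_succ_apply', ih]
    dsimp only
    rw [stepZ_eq h, List.range_succ, List.map_append, List.reverse_append]
    simp [iter]

theorem dualL_eq (h : ∀ X, gL (code X) = g X) (D T : ℕ) (v : Fin n) :
    dualL n gL D T v = dual g D T v := by
  unfold dualL dual
  rw [itersL_eq h]
  dsimp only
  rw [List.map_reverse, List.sum_reverse, List.map_map, Finset.sum_range]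
  rw [show (List.range T).map ((fun y => grL n gL y (v : ℕ)) ∘ fun t => List.ofFn (iter g D t)) =
    (List.range T).map fun t => gr g (iter g D t) v from List.map_congr_left fun t _ =>
      grL_eq h _ _]
  rw [map_range, List.sum_ofFn]

end

/-- picking -/
def pickL (n : ℕ) (p : ℕ → Bool) : ℕ := ((List.range n).filter p).getD 0 n

/-- the value of an option -/
def optN (o : Option (Fin n)) : ℕ := match o with
  | none => n
  | some w => w

theorem pickL_eq {pL : ℕ → Bool} {p : Fin n → Bool} (h : ∀ i : Fin n, pL i = p i) :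
    pickL n pL = optN (pick p) := by
  unfold pickL pick
  have h1 : (List.range n) = (List.finRange n).map (fun i : Fin n => (i : ℕ)) := by
    apply List.ext_getElem
    · simp
    · intro i h1 h2
      simp
  rw [h1, List.filter_map]
  have h2 : (pL ∘ fun i : Fin n => (i : ℕ)) = p := funext h
  rw [h2]
  cases (List.finRange n).filter p with
  | nil => rfl
  | cons a l => rfl

/-- case distinction -/
def onPickL {β : Type} (n : ℕ) (k : ℕ) (a : β) (b : ℕ → β) : β := bif decide (k < n) then b k else a

theorem onPickL_eq {β γ : Type} {C : β → γ} {o : Option (Fin n)} {k : ℕ} (hk : k = optN o)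
    {a : β} {b : Fin n → β} {aL : γ} {bL : ℕ → γ} (ha : aL = C a)
    (hb : ∀ w : Fin n, o = some w → bL w = C (b w)) :
    onPickL n k aL bL = C (onPick o a b) := by
  unfold onPickL onPick
  cases o with
  | none =>
    have : k = n := hk
    simp [this, ha]
  | some w =>
    have : k = w := hk
    simp [this, hb w rfl]

/-- the state, on lists -/
abbrev StL : Type := List Bool × List (List Bool) × List (List Bool)

/-- the code of a state -/
def codeS (s : St n) : StL := (code s.I, codeF s.blk, codeF s.R)

/-- the current function -/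
def curL (n : ℕ) (f : List Bool → ℤ) (s : StL) (X : List Bool) : ℤ :=
  f (orL n s.1 (clL n s.2.1 X))

/-- replace a block by the empty set -/
def killL (n : ℕ) (b : List (List Bool)) (w : ℕ) : List (List Bool) :=
  (List.range n).map fun v => bif decide (v = w) then empL n else b.getD v []

/-- fix in -/
def fixInL (n : ℕ) (s : StL) (w : ℕ) : StL :=
  (orL n s.1 (s.2.1.getD w []), killL n s.2.1 w, sglL n)

/-- fix out -/
def fixOutL (n : ℕ) (s : StL) (w : ℕ) : StL := (s.1, killL n s.2.1 w, sglL n)

/-- merge -/
def mergeL (n : ℕ) (s : StL) (a b : ℕ) : StL :=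
  (s.1, (List.range n).map (fun v => bif decide (v = b) then empL n else
    bif decide (v = a) then orL n (s.2.1.getD a []) (s.2.1.getD b []) else s.2.1.getD v []),
    sglL n)

/-- add an implication -/
def addArcL (n : ℕ) (s : StL) (a b : ℕ) : StL :=
  (s.1, s.2.1, (List.range n).map fun v => bif (s.2.2.getD v []).getD a false then
    orL n (s.2.2.getD v []) (s.2.2.getD b []) else s.2.2.getD v [])

/-- add an implication, or merge -/
def arcL (n : ℕ) (s : StL) (a b : ℕ) : StL :=
  bif (s.2.2.getD b []).getD a false then mergeL n s a b else addArcL n s a b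

theorem curL_eq {fL : List Bool → ℤ} {f : Finset (Fin n) → ℤ} (h : ∀ X, fL (code X) = f X)
    (s : St n) (X : Finset (Fin n)) : curL n fL (codeS s) (code X) = cur f s X := by
  unfold curL cur codeS
  dsimp only
  rw [clL_eq, orL_eq, h]

theorem killL_eq (b : Fin n → Finset (Fin n)) (w : Fin n) :
    killL n (codeF b) w = codeF fun v => if v = w then ∅ else b v := by
  unfold killL
  rw [show codeF (fun v => if v = w then ∅ else b v) =
    List.ofFn fun v => code (if v = w then ∅ else b v) from rfl]
  apply map_range_congr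
  intro i
  rw [getD_codeF, empL_eq]
  by_cases hi : i = w
  · simp [hi]
  · have : ¬ ((i : ℕ) = w) := fun e => hi (Fin.ext e)
    simp [hi, this]

theorem fixInL_eq (s : St n) (w : Fin n) : fixInL n (codeS s) w = codeS (fixIn s w) := by
  unfold fixInL codeS fixIn
  dsimp only
  rw [getD_codeF, orL_eq, killL_eq, sglL_eq]

theorem fixOutL_eq (s : St n) (w : Fin n) : fixOutL n (codeS s) w = codeS (fixOut s w) := by
  unfold fixOutL codeS fixOut
  dsimp only
  rw [killL_eq, sglL_eq]

theorem mergeL_eq (s : St n) (a b : Fin n) : mergeL n (codeS s) a b = codeS (merge s a b) := by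
  unfold mergeL codeS merge
  dsimp only
  rw [sglL_eq]
  congr 2
  apply map_range_congr
  intro i
  rw [getD_codeF, getD_codeF, getD_codeF, orL_eq, empL_eq]
  by_cases hi : i = b
  · simp [hi]
  · have h1 : ¬ ((i : ℕ) = b) := fun e => hi (Fin.ext e)
    by_cases hj : i = a
    · have h2 : (i : ℕ) = a := by rw [hj]
      dsimp only
      rw [if_neg hi, if_pos hj]
      rw [decide_eq_false h1, decide_eq_true h2]
      rfl
    · have h2 : ¬ ((i : ℕ) = a) := fun e => hj (Fin.ext e)
      simp [hi, h1, hj, h2]

theorem addArcL_eq (s : St n) (a b : Fin n) : addArcL n (codeS s) a b = codeS (addArc s a b) := by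
  unfold addArcL codeS addArc
  dsimp only
  congr 2
  apply map_range_congr
  intro i
  rw [getD_codeF, getD_codeF, orL_eq, getD_code]
  by_cases hi : a ∈ s.R i
  · simp [hi]
  · simp [hi]

theorem arcL_eq (s : St n) (a b : Fin n) : arcL n (codeS s) a b = codeS (arc s a b) := by
  unfold arcL arc
  rw [mergeL_eq, addArcL_eq]
  have : (codeS s).2.2 = codeF s.R := rfl
  rw [this, getD_codeF, getD_code]
  by_cases hi : a ∈ s.R b
  · simp [hi]
  · simp [hi]

/-- the round, once the maximal marginal is known -/
def round1L (n : ℕ) (g : List Bool → ℤ) (s : StL) (v0 η : ℕ) : StL :=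
  onPickL n (pickL n fun w => decide (2 * (parD n η : ℤ) *
      dualL n (PhiL n g s.2.2 (empL n) (allL n)) (parD n η) (parT n) w < -(parW n η : ℤ)))
    (onPickL n (pickL n fun w => decide ((parW n η : ℤ) < 2 * (parD n η : ℤ) *
        dualL n (PhiL n g s.2.2 (empL n) (allL n)) (parD n η) (parT n) w))
      (bif decide ((η : ℤ) ≤ upL n g s.2.2 v0) then
        onPickL n (pickL n fun w => decide (2 * (parD n η : ℤ) *
          dualL n (PhiL n g s.2.2 (s.2.2.getD v0 []) (allL n)) (parD n η) (parT n) w <
            -(parW n η : ℤ)))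
          s (fun w => arcL n s v0 w)
      else
        onPickL n (pickL n fun w => decide ((parW n η : ℤ) < 2 * (parD n η : ℤ) *
          dualL n (PhiL n g s.2.2 (empL n) (TpL n s.2.2 v0)) (parD n η) (parT n) w))
          s (fun w => arcL n s w v0))
      (fun w => fixOutL n s w))
    (fun w => fixInL n s w)

theorem round1L_eq {gL : List Bool → ℤ} {g : Finset (Fin n) → ℤ} (h : ∀ X, gL (code X) = g X)
    (s : St n) (v0 : Fin n) (η : ℕ) :
    round1L n gL (codeS s) v0 η = codeS (round1 g s v0 η) := by
  have hR : (codeS s).2.2 = codeF s.R := rfl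
  unfold round1L round1
  rw [hR, empL_eq, allL_eq, getD_codeF, TpL_eq, upL_eq h]
  refine onPickL_eq (C := codeS) (pickL_eq fun i => ?_) ?_ fun w _ => fixInL_eq s w
  · rw [dualL_eq fun X => PhiL_eq h _ _ _ X]
  refine onPickL_eq (C := codeS) (pickL_eq fun i => ?_) ?_ fun w _ => fixOutL_eq s w
  · rw [dualL_eq fun X => PhiL_eq h _ _ _ X]
  cases decide ((η : ℤ) ≤ up g s.R v0)
  · simp only [cond_false]
    refine onPickL_eq (C := codeS) (pickL_eq fun i => ?_) rfl fun w _ => arcL_eq s w v0
    rw [dualL_eq fun X => PhiL_eq h _ _ _ X]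
  · simp only [cond_true]
    refine onPickL_eq (C := codeS) (pickL_eq fun i => ?_) rfl fun w _ => arcL_eq s v0 w
    rw [dualL_eq fun X => PhiL_eq h _ _ _ X]

/-- one round -/
def mroundL (n : ℕ) (f : List Bool → ℤ) (s : StL) : StL :=
  onPickL n (pickL n fun v => (List.range n).all fun u =>
      decide (etaL n (curL n f s) s.2.2 u ≤ etaL n (curL n f s) s.2.2 v)) s
    (fun v0 => bif decide (etaL n (curL n f s) s.2.2 v0 ≤ 0) then s else
      round1L n (curL n f s) s v0 (etaL n (curL n f s) s.2.2 v0).toNat)

theorem mroundL_eq {fL : List Bool → ℤ} {f : Finset (Fin n) → ℤ} (h : ∀ X, fL (code X) = f X)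
    (s : St n) : mroundL n fL (codeS s) = codeS (round f s) := by
  have hR : (codeS s).2.2 = codeF s.R := rfl
  have hc := curL_eq h s
  unfold mroundL round
  rw [hR]
  refine onPickL_eq (C := codeS) (pickL_eq fun i => ?_) rfl fun w _ => ?_
  · rw [Bool.eq_iff_iff, List.all_eq_true, decide_eq_true_iff]
    constructor
    · intro h1 u
      have := h1 u (List.mem_range.2 u.isLt)
      rwa [etaL_eq hc, etaL_eq hc, decide_eq_true_iff] at this
    · intro h1 u hu
      have hu' := List.mem_range.1 hu
      have := h1 ⟨u, hu'⟩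
      rw [← etaL_eq hc, ← etaL_eq hc] at this
      exact decide_eq_true this
  · rw [etaL_eq hc]
    cases decide (eta (cur f s) s.R w ≤ 0)
    · simp only [cond_false]
      exact round1L_eq hc s w _
    · rfl

/-- the initial state -/
def initL (n : ℕ) : StL := (empL n, sglL n, sglL n)

theorem initL_eq : initL n = codeS (init n) := by
  unfold initL codeS init
  rw [empL_eq, sglL_eq]

/-- the minimum -/
def minvalL (n : ℕ) (f : List Bool → ℤ) : ℤ :=
  curL n f ((mroundL n f)^[rounds n] (initL n)) (empL n)

theorem minvalL_eq {fL : List Bool → ℤ} {f : Finset (Fin n) → ℤ} (h : ∀ X, fL (code X) = f X) :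
    minvalL n fL = minval f := by
  have key : ∀ k, (mroundL n fL)^[k] (initL n) = codeS ((round f)^[k] (init n)) := by
    intro k
    induction k with
    | zero => exact initL_eq
    | succ k ih =>
      rw [Function.iterate_succ_apply', ih, mroundL_eq h, Function.iterate_succ_apply']
  unfold minvalL minval
  rw [key, empL_eq, curL_eq h]

end Pool.Agent.TH660.SC
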