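import Pool.Agent.TH660.SC.Lists
import Pool.Agent.H671R2.PolyAuto

/-!
# The algorithm runs in polynomial time
-/

namespace Pool.Agent.TH660.SC

open Pool.Agent.NPC

variable {α : Type} [TEnc α] {n : α → ℕ}

theorem poly_prdL (hn : UPoly n) {y : α → List ℕ} {v : α → ℕ} (hy : Poly y) (hv : Poly v) :
    Poly (fun a => prdL (n a) (y a) (v a)) := by
  unfold prdL
  refine NPC.Poly.map (F := fun a u => decide ((y a).getD (v a) 0 < (y a).getD u 0) ||
    (decide ((y a).getD u 0 = (y a).getD (v a) 0) && decide (u < v a))) hn.range ?_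
  have hy' : Poly (fun p : α × ℕ => y p.1) := hy.comp (NPC.Poly.fst NPC.Poly.id)
  have hv' : Poly (fun p : α × ℕ => v p.1) := hv.comp (NPC.Poly.fst NPC.Poly.id)
  fun_prop

theorem poly_insL (hn : UPoly n) {B : α → List Bool} {v : α → ℕ} (hB : Poly B) (hv : Poly v) :
    Poly (fun a => insL (n a) (B a) (v a)) := by
  unfold insL
  refine NPC.Poly.map (F := fun a u => (B a).getD u false || decide (u = v a)) hn.range ?_
  have hy' : Poly (fun p : α × ℕ => B p.1) := hB.comp (NPC.Poly.fst NPC.Poly.id)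
  have hv' : Poly (fun p : α × ℕ => v p.1) := hv.comp (NPC.Poly.fst NPC.Poly.id)
  fun_prop

theorem poly_ersL (hn : UPoly n) {B : α → List Bool} {v : α → ℕ} (hB : Poly B) (hv : Poly v) :
    Poly (fun a => ersL (n a) (B a) (v a)) := by
  unfold ersL
  refine NPC.Poly.map (F := fun a u => (B a).getD u false && !decide (u = v a)) hn.range ?_
  have hy' : Poly (fun p : α × ℕ => B p.1) := hB.comp (NPC.Poly.fst NPC.Poly.id)
  have hv' : Poly (fun p : α × ℕ => v p.1) := hv.comp (NPC.Poly.fst NPC.Poly.id)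
  fun_prop

theorem poly_cmpL (hn : UPoly n) {B : α → List Bool} (hB : Poly B) :
    Poly (fun a => cmpL (n a) (B a)) := by
  unfold cmpL
  refine NPC.Poly.map (F := fun a u => !((B a).getD u false)) hn.range ?_
  have hy' : Poly (fun p : α × ℕ => B p.1) := hB.comp (NPC.Poly.fst NPC.Poly.id)
  fun_prop

theorem poly_allL (hn : UPoly n) : Poly (fun a => allL (n a)) := by
  unfold allL
  exact NPC.Poly.map (F := fun _ _ => true) hn.range (NPC.Poly.const _)

theorem poly_empL (hn : UPoly n) : Poly (fun a => empL (n a)) := by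
  unfold empL
  exact NPC.Poly.map (F := fun _ _ => false) hn.range (NPC.Poly.const _)

theorem poly_cntL (hn : UPoly n) {B X : α → List Bool} (hB : Poly B) (hX : Poly X) :
    Poly (fun a => cntL (n a) (B a) (X a)) := by
  unfold cntL
  refine NPC.Poly.length (NPC.Poly.filter (p := fun a u => (B a).getD u false && (X a).getD u false)
    hn.range ?_)
  have hy' : Poly (fun p : α × ℕ => B p.1) := hB.comp (NPC.Poly.fst NPC.Poly.id)
  have hv' : Poly (fun p : α × ℕ => X p.1) := hX.comp (NPC.Poly.fst NPC.Poly.id)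
  fun_prop

theorem sz_mapRange_bool (k : ℕ) (f : ℕ → Bool) : sz ((List.range k).map f) ≤ k * 4 + 1 := by
  refine (sz_le_length_mul _ 3 ?_).trans ?_
  · intro a _
    exact sz_bool_le a
  · simp

theorem poly_grdyL (hn : UPoly n) {test : α → List Bool → Bool}
    (ht : NPC.Poly (fun p : α × List Bool => test p.1 p.2)) {X : α → List Bool}
    (hX : NPC.Poly X) : NPC.Poly (fun a => grdyL (n a) (test a) (X a)) := by
  unfold grdyL
  obtain ⟨r, hr⟩ := NPC.Poly.sz_le hn
  have hn2 : ∀ a, n a ≤ r.eval (sz a) := by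
    intro a
    have h1 := hr a
    have h2 := length_lt_sz (List.replicate (n a) ())
    rw [List.length_replicate] at h2
    omega
  refine NPC.Poly.foldl (F := fun a B v => bif (X a).getD v false && test a (ersL (n a) B v) then
    ersL (n a) B v else B) hn.range (poly_allL hn) ?_ (Polynomial.C 4 * r + Polynomial.C 1) ?_
  · have hX' : NPC.Poly (fun p : α × List Bool × ℕ => X p.1) :=
      hX.comp (NPC.Poly.fst NPC.Poly.id)
    have he : NPC.Poly (fun p : α × List Bool × ℕ => ersL (n p.1) p.2.1 p.2.2) :=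
      poly_ersL (hn.comp (NPC.Poly.fst NPC.Poly.id)) (NPC.Poly.fst (NPC.Poly.snd NPC.Poly.id))
        (NPC.Poly.snd (NPC.Poly.snd NPC.Poly.id))
    have ht' : NPC.Poly (fun p : α × List Bool × ℕ => test p.1 (ersL (n p.1) p.2.1 p.2.2)) :=
      ht.comp (NPC.Poly.pair (NPC.Poly.fst NPC.Poly.id) he)
    fun_prop
  · intro a k _
    have key : ∀ l : List ℕ, sz (l.foldl (fun B v => bif (X a).getD v false &&
        test a (ersL (n a) B v) then ersL (n a) B v else B) (allL (n a))) ≤ n a * 4 + 1 := by
      intro l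
      induction l using List.reverseRecOn with
      | nil => exact sz_mapRange_bool _ _
      | append_singleton l v ih =>
        rw [List.foldl_append, List.foldl_cons, List.foldl_nil]
        cases hc : ((X a).getD v false && test a (ersL (n a) (l.foldl (fun B v =>
          bif (X a).getD v false && test a (ersL (n a) B v) then ersL (n a) B v else B)
          (allL (n a))) v))
        · simpa using ih
        · simp only [cond_true]
          exact sz_mapRange_bool _ _
    refine (key _).trans ?_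
    have := hn2 a
    simp only [Polynomial.eval_add, Polynomial.eval_mul, Polynomial.eval_C]
    omega

theorem poly_hfL (hn : UPoly n) {t₁ t₂ : α → List Bool → Bool}
    (ht₁ : NPC.Poly (fun p : α × List Bool => t₁ p.1 p.2))
    (ht₂ : NPC.Poly (fun p : α × List Bool => t₂ p.1 p.2)) :
    NPC.Poly (fun p : α × List Bool => hfL (n p.1) (t₁ p.1) (t₂ p.1) p.2) := by
  unfold hfL
  have hn' : UPoly (fun p : α × List Bool => n p.1) := hn.comp (NPC.Poly.fst NPC.Poly.id)
  have hX : NPC.Poly (fun p : α × List Bool => p.2) := NPC.Poly.snd NPC.Poly.id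
  have h1 : NPC.Poly (fun p : (α × List Bool) × List Bool => t₁ p.1.1 p.2) :=
    ht₁.comp (NPC.Poly.pair (NPC.Poly.fst (NPC.Poly.fst NPC.Poly.id)) (NPC.Poly.snd NPC.Poly.id))
  have h2 : NPC.Poly (fun p : (α × List Bool) × List Bool => t₂ p.1.1 p.2) :=
    ht₂.comp (NPC.Poly.pair (NPC.Poly.fst (NPC.Poly.fst NPC.Poly.id)) (NPC.Poly.snd NPC.Poly.id))
  have hc := poly_cmpL hn' hX
  exact NPC.Poly.add
    (poly_cntL hn' (poly_grdyL (test := fun p : α × List Bool => t₁ p.1) hn' h1 hX) hX)
    (poly_cntL hn' (poly_grdyL (test := fun p : α × List Bool => t₂ p.1) hn' h2 hc) hc)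

theorem sz_mapRange_nat (k D : ℕ) (f : ℕ → ℕ) (h : ∀ i, f i ≤ D) :
    sz ((List.range k).map f) ≤ k * (2 * sz D + 1) + 1 := by
  refine (sz_le_length_mul _ (2 * sz D) ?_).trans ?_
  · intro a ha
    obtain ⟨i, _, rfl⟩ := List.mem_map.1 ha
    exact sz_nat_mono_le (h i)
  · simp

theorem poly_decL (hn : UPoly n) {H : α → List Bool → ℕ}
    (hH : NPC.Poly (fun p : α × List Bool => H p.1 p.2)) {D T c : α → ℕ} (hD : NPC.Poly D)
    (hT : UPoly T) (hc : NPC.Poly c) :
    NPC.Poly (fun a => decL (n a) (H a) (D a) (T a) (c a)) := by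
  unfold decL
  obtain ⟨r, hr⟩ := NPC.Poly.sz_le hn
  have hn2 : ∀ a, n a ≤ r.eval (sz a) := by
    intro a
    have h1 := hr a
    have h2 := length_lt_sz (List.replicate (n a) ())
    rw [List.length_replicate] at h2
    omega
  obtain ⟨rD, hrD⟩ := hD.sz_le
  have hs : NPC.Poly (fun a => ((List.range (n a)).map (fun _ => 0), decide (H a (empL (n a)) ≤ c a))) := by
    refine NPC.Poly.pair (NPC.Poly.map (F := fun _ _ => 0) hn.range (NPC.Poly.const _)) ?_
    exact NPC.Poly.decide_le (hH.comp (NPC.Poly.pair NPC.Poly.id (poly_empL hn))) hc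
  have hF : NPC.Poly (fun p : α × (List ℕ × Bool) => roundL (n p.1) (H p.1) (D p.1) (c p.1) p.2) := by
    unfold roundL
    have hn' : UPoly (fun p : (α × (List ℕ × Bool)) × ℕ => n p.1.1) :=
      hn.comp (NPC.Poly.fst (NPC.Poly.fst NPC.Poly.id))
    have hy : NPC.Poly (fun p : (α × (List ℕ × Bool)) × ℕ => p.1.2.1) :=
      NPC.Poly.fst (NPC.Poly.snd (NPC.Poly.fst NPC.Poly.id))
    have hv : NPC.Poly (fun p : (α × (List ℕ × Bool)) × ℕ => p.2) := NPC.Poly.snd NPC.Poly.id
    have hp := poly_prdL hn' hy hv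
    have hi := poly_insL hn' hp hv
    have ha : NPC.Poly (fun p : (α × (List ℕ × Bool)) × ℕ => p.1.1) :=
      NPC.Poly.fst (NPC.Poly.fst NPC.Poly.id)
    have e1 := hH.comp (NPC.Poly.pair ha hp)
    have e2 := hH.comp (NPC.Poly.pair ha hi)
    have hD' : NPC.Poly (fun p : (α × (List ℕ × Bool)) × ℕ => D p.1.1) := hD.comp ha
    have hc' : NPC.Poly (fun p : (α × (List ℕ × Bool)) × ℕ => c p.1.1) := hc.comp ha
    refine NPC.Poly.pair ?_ ?_
    · unfold stepL
      refine NPC.Poly.map (F := fun (p : α × (List ℕ × Bool)) v => min (D p.1) (p.2.1.getD v 0 +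
        H p.1 (insL (n p.1) (prdL (n p.1) p.2.1 v) v) - H p.1 (prdL (n p.1) p.2.1 v)))
        (hn.comp (NPC.Poly.fst NPC.Poly.id)).range ?_
      exact NPC.Poly.min hD' (NPC.Poly.sub (NPC.Poly.add (NPC.Poly.getD hy hv (NPC.Poly.const 0)) e2) e1)
    · refine NPC.Poly.and (NPC.Poly.snd (NPC.Poly.snd NPC.Poly.id)) ?_
      unfold okL
      refine NPC.Poly.all (p := fun (p : α × (List ℕ × Bool)) v =>
        decide (H p.1 (insL (n p.1) (prdL (n p.1) p.2.1 v) v) ≤ c p.1))
        (hn.comp (NPC.Poly.fst NPC.Poly.id)).range ?_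
      exact NPC.Poly.decide_le e2 hc'
  have key : ∀ a, ∀ k, sz ((roundL (n a) (H a) (D a) (c a))^[k]
      ((List.range (n a)).map (fun _ => 0), decide (H a (empL (n a)) ≤ c a))) ≤
        n a * (2 * sz (D a) + 1) + 1 + 3 + 1 := by
    intro a k
    cases k with
    | zero =>
      have h1 := sz_mapRange_nat (n a) (D a) (fun _ => 0) (fun _ => Nat.zero_le _)
      have h2 := sz_bool_le (decide (H a (empL (n a)) ≤ c a))
      simp only [Function.iterate_zero, id, sz_pair]
      omega
    | succ k =>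
      rw [Function.iterate_succ_apply']
      generalize (roundL (n a) (H a) (D a) (c a))^[k] _ = s
      unfold roundL stepL
      have h1 := sz_mapRange_nat (n a) (D a) (fun v => min (D a) (s.1.getD v 0 +
        H a (insL (n a) (prdL (n a) s.1 v) v) - H a (prdL (n a) s.1 v)))
        (fun _ => min_le_left _ _)
      have h2 := sz_bool_le (s.2 && okL (n a) (H a) (c a) s.1)
      rw [sz_pair]
      omega
  have := NPC.Poly.iterLen (F := fun a s => roundL (n a) (H a) (D a) (c a) s) hT hs hF
    (r * (Polynomial.C 2 * rD + Polynomial.C 1) + Polynomial.C 5) (by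
      intro a k _
      refine (key a k).trans ?_
      have h1 := hn2 a
      have h2 := hrD a
      have h3 : n a * (2 * sz (D a) + 1) ≤ r.eval (sz a) * (2 * rD.eval (sz a) + 1) :=
        Nat.mul_le_mul h1 (by omega)
      simp only [Polynomial.eval_add, Polynomial.eval_mul, Polynomial.eval_C]
      omega)
  refine (NPC.Poly.snd this).congr fun a => ?_
  rw [List.length_replicate]

end Pool.Agent.TH660.SC
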