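import Pool.Agent.TH660.SC.AlgL
import Pool.Agent.TH660.SC.PolyL
import Pool.Agent.H687R2.IntPoly

/-!
# Minimisation of submodular functions in polynomial time
-/

namespace Pool.Agent.TH660.SC

open Pool.Agent.NPC

variable {α : Type} [TEnc α] {n : α → ℕ}

theorem poly_imax {f g : α → ℤ} (hf : NPC.Poly f) (hg : NPC.Poly g) :
    NPC.Poly (fun a => max (f a) (g a)) :=
  (NPC.Poly.cond (NPC.Poly.ile hf hg) hg hf).congr fun a => by
    by_cases h : f a ≤ g a
    · simp [h]
    · simp only [h, decide_false, cond_false]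
      exact (max_eq_left (le_of_not_ge h)).symm

/-- application of a two-place function -/
theorem poly_app {β γ δ : Type} [TEnc β] [TEnc γ] [TEnc δ] {g : α → β → γ}
    (hg : NPC.Poly (fun p : α × β => g p.1 p.2)) {u : δ → α} {X : δ → β} (hu : NPC.Poly u)
    (hX : NPC.Poly X) : NPC.Poly (fun d => g (u d) (X d)) :=
  hg.comp (NPC.Poly.pair hu hX)

/-- shift of the context -/
theorem poly_shift {β γ δ : Type} [TEnc β] [TEnc γ] [TEnc δ] {g : α → β → γ}
    (hg : NPC.Poly (fun p : α × β => g p.1 p.2)) {u : δ → α} (hu : NPC.Poly u) :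
    NPC.Poly (fun p : δ × β => g (u p.1) p.2) :=
  hg.comp (NPC.Poly.pair (hu.comp (NPC.Poly.fst NPC.Poly.id)) (NPC.Poly.snd NPC.Poly.id))

theorem poly_clL (hn : UPoly n) {b : α → List (List Bool)} {X : α → List Bool}
    (hb : NPC.Poly b) (hX : NPC.Poly X) : NPC.Poly (fun a => clL (n a) (b a) (X a)) := by
  unfold clL
  refine NPC.Poly.map (F := fun a u => (List.range (n a)).any fun v =>
    (X a).getD v false && ((b a).getD v []).getD u false) hn.range ?_
  refine NPC.Poly.any (p := fun (p : α × ℕ) v =>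
    (X p.1).getD v false && ((b p.1).getD v []).getD p.2 false)
    (hn.comp (NPC.Poly.fst NPC.Poly.id)).range ?_
  have hX' : NPC.Poly (fun p : (α × ℕ) × ℕ => X p.1.1) :=
    hX.comp (NPC.Poly.fst (NPC.Poly.fst NPC.Poly.id))
  have hb' : NPC.Poly (fun p : (α × ℕ) × ℕ => b p.1.1) :=
    hb.comp (NPC.Poly.fst (NPC.Poly.fst NPC.Poly.id))
  exact NPC.Poly.and (NPC.Poly.getD hX' (NPC.Poly.snd NPC.Poly.id) (NPC.Poly.const _))
    (NPC.Poly.getD (NPC.Poly.getD hb' (NPC.Poly.snd NPC.Poly.id) (NPC.Poly.const _))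
      (NPC.Poly.snd (NPC.Poly.fst NPC.Poly.id)) (NPC.Poly.const _))

theorem poly_orL (hn : UPoly n) {A B : α → List Bool} (hA : NPC.Poly A) (hB : NPC.Poly B) :
    NPC.Poly (fun a => orL (n a) (A a) (B a)) := by
  unfold orL
  refine NPC.Poly.map (F := fun a u => (A a).getD u false || (B a).getD u false) hn.range ?_
  have hA' : NPC.Poly (fun p : α × ℕ => A p.1) := hA.comp (NPC.Poly.fst NPC.Poly.id)
  have hB' : NPC.Poly (fun p : α × ℕ => B p.1) := hB.comp (NPC.Poly.fst NPC.Poly.id)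
  fun_prop

theorem poly_andL (hn : UPoly n) {A B : α → List Bool} (hA : NPC.Poly A) (hB : NPC.Poly B) :
    NPC.Poly (fun a => andL (n a) (A a) (B a)) := by
  unfold andL
  refine NPC.Poly.map (F := fun a u => (A a).getD u false && (B a).getD u false) hn.range ?_
  have hA' : NPC.Poly (fun p : α × ℕ => A p.1) := hA.comp (NPC.Poly.fst NPC.Poly.id)
  have hB' : NPC.Poly (fun p : α × ℕ => B p.1) := hB.comp (NPC.Poly.fst NPC.Poly.id)
  fun_prop

theorem poly_nth {b : α → List (List Bool)} {v : α → ℕ} (hb : NPC.Poly b) (hv : NPC.Poly v) :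
    NPC.Poly (fun a => (b a).getD (v a) []) :=
  NPC.Poly.getD hb hv (NPC.Poly.const _)

theorem poly_bit {A : α → List Bool} {v : α → ℕ} (hA : NPC.Poly A) (hv : NPC.Poly v) :
    NPC.Poly (fun a => (A a).getD (v a) false) :=
  NPC.Poly.getD hA hv (NPC.Poly.const _)

theorem poly_TpL (hn : UPoly n) {R : α → List (List Bool)} {v : α → ℕ} (hR : NPC.Poly R)
    (hv : NPC.Poly v) : NPC.Poly (fun a => TpL (n a) (R a) (v a)) := by
  unfold TpL
  refine NPC.Poly.map (F := fun a u => !(((R a).getD u []).getD (v a) false)) hn.range ?_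
  have hR' : NPC.Poly (fun p : α × ℕ => R p.1) := hR.comp (NPC.Poly.fst NPC.Poly.id)
  have hv' : NPC.Poly (fun p : α × ℕ => v p.1) := hv.comp (NPC.Poly.fst NPC.Poly.id)
  exact NPC.Poly.not (poly_bit (poly_nth hR' (NPC.Poly.snd NPC.Poly.id)) hv')

theorem poly_sglL (hn : UPoly n) : NPC.Poly (fun a => sglL (n a)) := by
  unfold sglL
  refine NPC.Poly.map (F := fun a v => insL (n a) (empL (n a)) v) hn.range ?_
  have hn' : UPoly (fun p : α × ℕ => n p.1) := hn.comp (NPC.Poly.fst NPC.Poly.id)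
  exact poly_insL hn' (poly_empL hn') (NPC.Poly.snd NPC.Poly.id)

section
variable {g : α → List Bool → ℤ} {R : α → List (List Bool)} {v : α → ℕ}

theorem poly_upL (hn : UPoly n) (hg : NPC.Poly (fun p : α × List Bool => g p.1 p.2))
    (hR : NPC.Poly R) (hv : NPC.Poly v) : NPC.Poly (fun a => upL (n a) (g a) (R a) (v a)) := by
  unfold upL
  have h1 := poly_nth hR hv
  exact NPC.Poly.isub (poly_app hg NPC.Poly.id h1) (poly_app hg NPC.Poly.id (poly_ersL hn h1 hv))

theorem poly_loL (hn : UPoly n) (hg : NPC.Poly (fun p : α × List Bool => g p.1 p.2))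
    (hR : NPC.Poly R) (hv : NPC.Poly v) : NPC.Poly (fun a => loL (n a) (g a) (R a) (v a)) := by
  unfold loL
  have h1 := poly_TpL hn hR hv
  exact NPC.Poly.isub (poly_app hg NPC.Poly.id (poly_insL hn h1 hv)) (poly_app hg NPC.Poly.id h1)

theorem poly_ccL (hn : UPoly n) (hg : NPC.Poly (fun p : α × List Bool => g p.1 p.2))
    (hR : NPC.Poly R) (hv : NPC.Poly v) : NPC.Poly (fun a => ccL (n a) (g a) (R a) (v a)) :=
  poly_imax (NPC.Poly.const 0) (NPC.Poly.ineg (poly_loL hn hg hR hv))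

theorem poly_etaL (hn : UPoly n) (hg : NPC.Poly (fun p : α × List Bool => g p.1 p.2))
    (hR : NPC.Poly R) (hv : NPC.Poly v) : NPC.Poly (fun a => etaL (n a) (g a) (R a) (v a)) :=
  poly_imax (poly_upL hn hg hR hv) (NPC.Poly.ineg (poly_loL hn hg hR hv))

theorem poly_extL (hn : UPoly n) (hg : NPC.Poly (fun p : α × List Bool => g p.1 p.2))
    (hR : NPC.Poly R) {X : α → List Bool} (hX : NPC.Poly X) :
    NPC.Poly (fun a => extL (n a) (g a) (R a) (X a)) := by
  unfold extL
  have h1 := poly_clL hn hR hX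
  refine NPC.Poly.iadd (poly_app hg NPC.Poly.id h1) (NPC.Poly.isum ?_)
  refine NPC.Poly.map (F := fun a w => bif (clL (n a) (R a) (X a)).getD w false &&
    !((X a).getD w false) then ccL (n a) (g a) (R a) w else 0) hn.range ?_
  have hf : NPC.Poly (fun p : α × ℕ => p.1) := NPC.Poly.fst NPC.Poly.id
  have hs : NPC.Poly (fun p : α × ℕ => p.2) := NPC.Poly.snd NPC.Poly.id
  exact NPC.Poly.cond (NPC.Poly.and (poly_bit (h1.comp hf) hs)
    (NPC.Poly.not (poly_bit (hX.comp hf) hs)))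
    (poly_ccL (n := fun p : α × ℕ => n p.1) (g := fun p => g p.1) (R := fun p => R p.1)
      (v := fun p => p.2) (hn.comp hf) (poly_shift hg hf) (hR.comp hf) hs) (NPC.Poly.const 0)

theorem poly_PhiL (hn : UPoly n) (hg : NPC.Poly (fun p : α × List Bool => g p.1 p.2))
    (hR : NPC.Poly R) {A B : α → List Bool} (hA : NPC.Poly A) (hB : NPC.Poly B) :
    NPC.Poly (fun p : α × List Bool => PhiL (n p.1) (g p.1) (R p.1) (A p.1) (B p.1) p.2) := by
  unfold PhiL
  have hf : NPC.Poly (fun p : α × List Bool => p.1) := NPC.Poly.fst NPC.Poly.id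
  have hs : NPC.Poly (fun p : α × List Bool => p.2) := NPC.Poly.snd NPC.Poly.id
  have hn' : UPoly (fun p : α × List Bool => n p.1) := hn.comp hf
  exact poly_extL (g := fun p : α × List Bool => g p.1) hn' (poly_shift hg hf) (hR.comp hf)
    (poly_andL hn' (poly_orL hn' hs (hA.comp hf)) (hB.comp hf))

theorem poly_grL (hn : UPoly n) {F : α → List Bool → ℤ}
    (hF : NPC.Poly (fun p : α × List Bool => F p.1 p.2)) {y : α → List ℕ} (hy : NPC.Poly y)
    (hv : NPC.Poly v) : NPC.Poly (fun a => grL (n a) (F a) (y a) (v a)) := by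
  unfold grL
  have h1 := poly_prdL hn hy hv
  exact NPC.Poly.isub (poly_app hF NPC.Poly.id (poly_insL hn h1 hv)) (poly_app hF NPC.Poly.id h1)

theorem poly_stepZ (hn : UPoly n) {F : α → List Bool → ℤ}
    (hF : NPC.Poly (fun p : α × List Bool => F p.1 p.2)) {y : α → List ℕ} (hy : NPC.Poly y)
    {D : α → ℕ} (hD : NPC.Poly D) : NPC.Poly (fun a => stepZ (n a) (F a) (D a) (y a)) := by
  unfold stepZ
  refine NPC.Poly.map (F := fun a v => min (D a)
    ((((y a).getD v 0 : ℕ) : ℤ) - grL (n a) (F a) (y a) v).toNat) hn.range ?_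
  have hf : NPC.Poly (fun p : α × ℕ => p.1) := NPC.Poly.fst NPC.Poly.id
  have hs : NPC.Poly (fun p : α × ℕ => p.2) := NPC.Poly.snd NPC.Poly.id
  exact NPC.Poly.min (hD.comp hf) (NPC.Poly.toNat (NPC.Poly.isub
    (NPC.Poly.natCast (NPC.Poly.getD (hy.comp hf) hs (NPC.Poly.const 0)))
    (poly_grL (F := fun p : α × ℕ => F p.1) (hn.comp hf) (poly_shift hF hf) (hy.comp hf) hs)))

theorem poly_itersL (hn : UPoly n) {F : α → List Bool → ℤ}
    (hF : NPC.Poly (fun p : α × List Bool => F p.1 p.2)) {D T : α → ℕ} (hD : NPC.Poly D)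
    (hT : UPoly T) : NPC.Poly (fun a => itersL (n a) (F a) (D a) (T a)) := by
  unfold itersL
  obtain ⟨r, hr⟩ := NPC.Poly.sz_le hn
  have hn2 : ∀ a, n a ≤ r.eval (sz a) := by
    intro a
    have h1 := hr a
    have h2 := length_lt_sz (List.replicate (n a) ())
    rw [List.length_replicate] at h2
    omega
  obtain ⟨rD, hrD⟩ := hD.sz_le
  obtain ⟨rT, hrT⟩ := NPC.Poly.sz_le hT
  have hT2 : ∀ a, T a ≤ rT.eval (sz a) := by
    intro a
    have h1 := hrT a
    have h2 := length_lt_sz (List.replicate (T a) ())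
    rw [List.length_replicate] at h2
    omega
  have hs : NPC.Poly (fun a => ((List.range (n a)).map (fun _ => 0), ([] : List (List ℕ)))) :=
    NPC.Poly.pair (NPC.Poly.map (F := fun _ _ => 0) hn.range (NPC.Poly.const _)) (NPC.Poly.const _)
  have hst : NPC.Poly (fun p : α × (List ℕ × List (List ℕ)) =>
      (stepZ (n p.1) (F p.1) (D p.1) p.2.1, p.2.1 :: p.2.2)) := by
    have hf : NPC.Poly (fun p : α × (List ℕ × List (List ℕ)) => p.1) :=
      NPC.Poly.fst NPC.Poly.id
    have h21 : NPC.Poly (fun p : α × (List ℕ × List (List ℕ)) => p.2.1) :=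
      NPC.Poly.fst (NPC.Poly.snd NPC.Poly.id)
    have h22 : NPC.Poly (fun p : α × (List ℕ × List (List ℕ)) => p.2.2) :=
      NPC.Poly.snd (NPC.Poly.snd NPC.Poly.id)
    exact NPC.Poly.pair (poly_stepZ (F := fun p : α × (List ℕ × List (List ℕ)) => F p.1)
      (hn.comp hf) (poly_shift hF hf) h21 (hD.comp hf)) (NPC.Poly.cons h21 h22)
  have key : ∀ a, ∀ k,
      sz ((fun s : List ℕ × List (List ℕ) => (stepZ (n a) (F a) (D a) s.1, s.1 :: s.2))^[k]
        ((List.range (n a)).map (fun _ => 0), [])).1 ≤ n a * (2 * sz (D a) + 1) + 1 ∧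
      sz ((fun s : List ℕ × List (List ℕ) => (stepZ (n a) (F a) (D a) s.1, s.1 :: s.2))^[k]
        ((List.range (n a)).map (fun _ => 0), [])).2 ≤
          k * (n a * (2 * sz (D a) + 1) + 2) + 1 := by
    intro a k
    induction k with
    | zero =>
      exact ⟨sz_mapRange_nat (n a) (D a) (fun _ => 0) (fun _ => Nat.zero_le _), by simp⟩
    | succ k ih =>
      rw [Function.iterate_succ_apply']
      generalize (fun s : List ℕ × List (List ℕ) => (stepZ (n a) (F a) (D a) s.1, s.1 :: s.2))^[k]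
        ((List.range (n a)).map (fun _ => 0), []) = s at ih
      dsimp only
      refine ⟨?_, ?_⟩
      · unfold stepZ
        exact sz_mapRange_nat (n a) (D a) _ (fun _ => min_le_left _ _)
      · rw [sz_list_cons]
        have := ih.1
        have := ih.2
        have e : (k + 1) * (n a * (2 * sz (D a) + 1) + 2) =
          k * (n a * (2 * sz (D a) + 1) + 2) + (n a * (2 * sz (D a) + 1) + 2) := by ring
        omega
  have := NPC.Poly.iterLen (F := fun a (s : List ℕ × List (List ℕ)) =>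
    (stepZ (n a) (F a) (D a) s.1, s.1 :: s.2)) hT hs hst
    ((rT + Polynomial.C 1) * (r * (Polynomial.C 2 * rD + Polynomial.C 1) + Polynomial.C 2) +
      Polynomial.C 3) (by
      intro a k hk
      rw [List.length_replicate] at hk
      obtain ⟨k1, k2⟩ := key a k
      rw [sz_pair]
      have h1 := hn2 a
      have h2 := hrD a
      have h3 : n a * (2 * sz (D a) + 1) ≤ r.eval (sz a) * (2 * rD.eval (sz a) + 1) :=
        Nat.mul_le_mul h1 (by omega)
      have h4 : k * (n a * (2 * sz (D a) + 1) + 2) ≤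
          rT.eval (sz a) * (r.eval (sz a) * (2 * rD.eval (sz a) + 1) + 2) :=
        Nat.mul_le_mul (hk.trans (hT2 a)) (by omega)
      simp only [Polynomial.eval_add, Polynomial.eval_mul, Polynomial.eval_C]
      have e : (rT.eval (sz a) + 1) * (r.eval (sz a) * (2 * rD.eval (sz a) + 1) + 2) =
        rT.eval (sz a) * (r.eval (sz a) * (2 * rD.eval (sz a) + 1) + 2) +
        (r.eval (sz a) * (2 * rD.eval (sz a) + 1) + 2) := by ring
      rw [e]
      omega)
  exact this.congr fun a => by rw [List.length_replicate]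

theorem poly_dualL (hn : UPoly n) {F : α → List Bool → ℤ}
    (hF : NPC.Poly (fun p : α × List Bool => F p.1 p.2)) {D T : α → ℕ} (hD : NPC.Poly D)
    (hT : UPoly T) (hv : NPC.Poly v) :
    NPC.Poly (fun a => dualL (n a) (F a) (D a) (T a) (v a)) := by
  have hf : NPC.Poly (fun p : α × List ℕ => p.1) := NPC.Poly.fst NPC.Poly.id
  have hg : NPC.Poly (fun p : α × List ℕ => grL (n p.1) (F p.1) p.2 (v p.1)) :=
    poly_grL (n := fun p : α × List ℕ => n p.1) (F := fun p : α × List ℕ => F p.1)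
      (y := fun p => p.2) (v := fun p => v p.1) (hn.comp hf)
      (poly_shift hF hf) (NPC.Poly.snd NPC.Poly.id) (hv.comp hf)
  have hi : NPC.Poly (fun a => (itersL (n a) (F a) (D a) (T a)).2) :=
    NPC.Poly.snd (poly_itersL hn hF hD hT)
  have hm : NPC.Poly (fun a => ((itersL (n a) (F a) (D a) (T a)).2).map
      (fun y => grL (n a) (F a) y (v a))) :=
    NPC.Poly.map (F := fun a y => grL (n a) (F a) y (v a)) hi hg
  exact NPC.Poly.isum hm

end

attribute [local irreducible] itersL dualL PhiL extL etaL upL loL ccL clL TpL empL allL sglL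

theorem poly_pickL (hn : UPoly n) {p : α → ℕ → Bool}
    (hp : NPC.Poly (fun x : α × ℕ => p x.1 x.2)) : NPC.Poly (fun a => pickL (n a) (p a)) :=
  NPC.Poly.getD (NPC.Poly.filter hn.range hp) (NPC.Poly.const 0) hn.toPoly

theorem poly_onPickL {β : Type} [TEnc β] {m k : α → ℕ} (hm : NPC.Poly m) (hk : NPC.Poly k)
    {x : α → β} (hx : NPC.Poly x) {y : α → ℕ → β}
    (hy : NPC.Poly (fun p : α × ℕ => y p.1 p.2)) :
    NPC.Poly (fun a => onPickL (m a) (k a) (x a) (y a)) :=
  NPC.Poly.cond (NPC.Poly.decide_lt hk hm) (poly_app hy NPC.Poly.id hk) hx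

section
variable {s : α → StL} {w : α → ℕ}

theorem poly_killL (hn : UPoly n) {b : α → List (List Bool)} (hb : NPC.Poly b)
    (hw : NPC.Poly w) : NPC.Poly (fun a => killL (n a) (b a) (w a)) := by
  unfold killL
  refine NPC.Poly.map (F := fun a v => bif decide (v = w a) then empL (n a) else
    (b a).getD v []) hn.range ?_
  have hf : NPC.Poly (fun p : α × ℕ => p.1) := NPC.Poly.fst NPC.Poly.id
  have hs : NPC.Poly (fun p : α × ℕ => p.2) := NPC.Poly.snd NPC.Poly.id
  exact NPC.Poly.cond (NPC.Poly.decide_eq hs (hw.comp hf)) (poly_empL (hn.comp hf))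
    (poly_nth (hb.comp hf) hs)

theorem poly_fixInL (hn : UPoly n) (hs : NPC.Poly s) (hw : NPC.Poly w) :
    NPC.Poly (fun a => fixInL (n a) (s a) (w a)) :=
  NPC.Poly.pair (poly_orL hn (NPC.Poly.fst hs) (poly_nth (NPC.Poly.fst (NPC.Poly.snd hs)) hw))
    (NPC.Poly.pair (poly_killL hn (NPC.Poly.fst (NPC.Poly.snd hs)) hw) (poly_sglL hn))

theorem poly_fixOutL (hn : UPoly n) (hs : NPC.Poly s) (hw : NPC.Poly w) :
    NPC.Poly (fun a => fixOutL (n a) (s a) (w a)) :=
  NPC.Poly.pair (NPC.Poly.fst hs)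
    (NPC.Poly.pair (poly_killL hn (NPC.Poly.fst (NPC.Poly.snd hs)) hw) (poly_sglL hn))

theorem poly_mergeL (hn : UPoly n) (hs : NPC.Poly s) {x y : α → ℕ} (hx : NPC.Poly x)
    (hy : NPC.Poly y) : NPC.Poly (fun a => mergeL (n a) (s a) (x a) (y a)) := by
  have hb : NPC.Poly (fun a => (s a).2.1) := NPC.Poly.fst (NPC.Poly.snd hs)
  refine NPC.Poly.pair (NPC.Poly.fst hs) (NPC.Poly.pair ?_ (poly_sglL hn))
  refine NPC.Poly.map (F := fun a v => bif decide (v = y a) then empL (n a) else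
    bif decide (v = x a) then orL (n a) ((s a).2.1.getD (x a) []) ((s a).2.1.getD (y a) []) else
      (s a).2.1.getD v []) hn.range ?_
  have hf : NPC.Poly (fun p : α × ℕ => p.1) := NPC.Poly.fst NPC.Poly.id
  have hv : NPC.Poly (fun p : α × ℕ => p.2) := NPC.Poly.snd NPC.Poly.id
  have hn' : UPoly (fun p : α × ℕ => n p.1) := hn.comp hf
  exact NPC.Poly.cond (NPC.Poly.decide_eq hv (hy.comp hf)) (poly_empL hn')
    (NPC.Poly.cond (NPC.Poly.decide_eq hv (hx.comp hf))
      (poly_orL hn' (poly_nth (hb.comp hf) (hx.comp hf)) (poly_nth (hb.comp hf) (hy.comp hf)))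
      (poly_nth (hb.comp hf) hv))

theorem poly_addArcL (hn : UPoly n) (hs : NPC.Poly s) {x y : α → ℕ} (hx : NPC.Poly x)
    (hy : NPC.Poly y) : NPC.Poly (fun a => addArcL (n a) (s a) (x a) (y a)) := by
  have hR : NPC.Poly (fun a => (s a).2.2) := NPC.Poly.snd (NPC.Poly.snd hs)
  refine NPC.Poly.pair (NPC.Poly.fst hs) (NPC.Poly.pair (NPC.Poly.fst (NPC.Poly.snd hs)) ?_)
  refine NPC.Poly.map (F := fun a v => bif ((s a).2.2.getD v []).getD (x a) false then
    orL (n a) ((s a).2.2.getD v []) ((s a).2.2.getD (y a) []) else (s a).2.2.getD v [])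
    hn.range ?_
  have hf : NPC.Poly (fun p : α × ℕ => p.1) := NPC.Poly.fst NPC.Poly.id
  have hv : NPC.Poly (fun p : α × ℕ => p.2) := NPC.Poly.snd NPC.Poly.id
  have hn' : UPoly (fun p : α × ℕ => n p.1) := hn.comp hf
  exact NPC.Poly.cond (poly_bit (poly_nth (hR.comp hf) hv) (hx.comp hf))
    (poly_orL hn' (poly_nth (hR.comp hf) hv) (poly_nth (hR.comp hf) (hy.comp hf)))
    (poly_nth (hR.comp hf) hv)

theorem poly_arcL (hn : UPoly n) (hs : NPC.Poly s) {x y : α → ℕ} (hx : NPC.Poly x)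
    (hy : NPC.Poly y) : NPC.Poly (fun a => arcL (n a) (s a) (x a) (y a)) :=
  NPC.Poly.cond (poly_bit (poly_nth (NPC.Poly.snd (NPC.Poly.snd hs)) hy) hx)
    (poly_mergeL hn hs hx hy) (poly_addArcL hn hs hx hy)

theorem poly_parD (hn : UPoly n) {η : α → ℕ} (hη : NPC.Poly η) :
    NPC.Poly (fun a => parD (n a) (η a)) := by
  unfold parD
  have h1 : NPC.Poly n := hn.toPoly
  have h2 : NPC.Poly (fun a => 12 * (n a * n a * n a * n a) * η a) := by fun_prop
  exact h2.congr fun a => by ring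

theorem uPoly_parT (hn : UPoly n) : UPoly (fun a => parT (n a)) := by
  unfold parT
  have h1 := ((hn.mul hn).mul hn).mul ((hn.mul hn).mul hn)
  exact NPC.Poly.congr (((UPoly.const 36).mul h1).add (UPoly.const 1)) fun a => by
    congr 1
    ring

theorem poly_parW (hn : UPoly n) {η : α → ℕ} (hη : NPC.Poly η) :
    NPC.Poly (fun a => parW (n a) (η a)) := by
  unfold parW
  have h1 : NPC.Poly n := hn.toPoly
  have h3 := poly_parD hn hη
  have h4 : NPC.Poly (fun a => parT (n a)) := (uPoly_parT hn).toPoly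
  have h2 : NPC.Poly (fun a => n a * (parD (n a) (η a) * parD (n a) (η a)) +
    parT (n a) * (4 * (n a * n a * n a) * (η a * η a))) := by fun_prop
  exact h2.congr fun a => by ring

variable {g : α → List Bool → ℤ}

/-- the tests on the dual vector -/
theorem poly_low (hn : UPoly n) (hg : NPC.Poly (fun p : α × List Bool => g p.1 p.2))
    (hs : NPC.Poly s) {η : α → ℕ} (hη : NPC.Poly η) {A B : α → List Bool} (hA : NPC.Poly A)
    (hB : NPC.Poly B) : NPC.Poly (fun a => pickL (n a) fun w =>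
      decide (2 * (parD (n a) (η a) : ℤ) * dualL (n a) (PhiL (n a) (g a) (s a).2.2 (A a) (B a))
        (parD (n a) (η a)) (parT (n a)) w < -(parW (n a) (η a) : ℤ))) := by
  refine poly_pickL (p := fun a w => decide (2 * (parD (n a) (η a) : ℤ) *
    dualL (n a) (PhiL (n a) (g a) (s a).2.2 (A a) (B a)) (parD (n a) (η a)) (parT (n a)) w <
      -(parW (n a) (η a) : ℤ))) hn ?_
  have hf : NPC.Poly (fun p : α × ℕ => p.1) := NPC.Poly.fst NPC.Poly.id
  have hv : NPC.Poly (fun p : α × ℕ => p.2) := NPC.Poly.snd NPC.Poly.id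
  have hP := poly_PhiL hn hg (NPC.Poly.snd (NPC.Poly.snd hs)) hA hB
  have hd := poly_dualL (n := fun p : α × ℕ => n p.1)
    (F := fun p : α × ℕ => PhiL (n p.1) (g p.1) (s p.1).2.2 (A p.1) (B p.1)) (hn.comp hf)
    (D := fun p : α × ℕ => parD (n p.1) (η p.1)) (T := fun p : α × ℕ => parT (n p.1))
    (v := fun p : α × ℕ => p.2)
    (poly_shift (g := fun a X => PhiL (n a) (g a) (s a).2.2 (A a) (B a) X) hP hf)
    (poly_parD (hn.comp hf) (hη.comp hf)) (uPoly_parT (hn.comp hf)) hv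
  exact NPC.Poly.ilt (NPC.Poly.imul (NPC.Poly.imul (NPC.Poly.const 2)
    (NPC.Poly.natCast (poly_parD (hn.comp hf) (hη.comp hf)))) hd)
    (NPC.Poly.ineg (NPC.Poly.natCast (poly_parW (hn.comp hf) (hη.comp hf))))

theorem poly_high (hn : UPoly n) (hg : NPC.Poly (fun p : α × List Bool => g p.1 p.2))
    (hs : NPC.Poly s) {η : α → ℕ} (hη : NPC.Poly η) {A B : α → List Bool} (hA : NPC.Poly A)
    (hB : NPC.Poly B) : NPC.Poly (fun a => pickL (n a) fun w =>
      decide ((parW (n a) (η a) : ℤ) < 2 * (parD (n a) (η a) : ℤ) *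
        dualL (n a) (PhiL (n a) (g a) (s a).2.2 (A a) (B a))
        (parD (n a) (η a)) (parT (n a)) w)) := by
  refine poly_pickL (p := fun a w => decide ((parW (n a) (η a) : ℤ) <
    2 * (parD (n a) (η a) : ℤ) *
    dualL (n a) (PhiL (n a) (g a) (s a).2.2 (A a) (B a)) (parD (n a) (η a)) (parT (n a)) w)) hn ?_
  have hf : NPC.Poly (fun p : α × ℕ => p.1) := NPC.Poly.fst NPC.Poly.id
  have hv : NPC.Poly (fun p : α × ℕ => p.2) := NPC.Poly.snd NPC.Poly.id
  have hP := poly_PhiL hn hg (NPC.Poly.snd (NPC.Poly.snd hs)) hA hB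
  have hd := poly_dualL (n := fun p : α × ℕ => n p.1)
    (F := fun p : α × ℕ => PhiL (n p.1) (g p.1) (s p.1).2.2 (A p.1) (B p.1)) (hn.comp hf)
    (D := fun p : α × ℕ => parD (n p.1) (η p.1)) (T := fun p : α × ℕ => parT (n p.1))
    (v := fun p : α × ℕ => p.2)
    (poly_shift (g := fun a X => PhiL (n a) (g a) (s a).2.2 (A a) (B a) X) hP hf)
    (poly_parD (hn.comp hf) (hη.comp hf)) (uPoly_parT (hn.comp hf)) hv
  exact NPC.Poly.ilt (NPC.Poly.natCast (poly_parW (hn.comp hf) (hη.comp hf)))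
    (NPC.Poly.imul (NPC.Poly.imul (NPC.Poly.const 2)
    (NPC.Poly.natCast (poly_parD (hn.comp hf) (hη.comp hf)))) hd)

theorem poly_round1L (hn : UPoly n) (hg : NPC.Poly (fun p : α × List Bool => g p.1 p.2))
    (hs : NPC.Poly s) {v0 η : α → ℕ} (hv0 : NPC.Poly v0) (hη : NPC.Poly η) :
    NPC.Poly (fun a => round1L (n a) (g a) (s a) (v0 a) (η a)) := by
  unfold round1L
  have hR : NPC.Poly (fun a => (s a).2.2) := NPC.Poly.snd (NPC.Poly.snd hs)
  have hE := poly_empL hn
  have hU := poly_allL hn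
  have hf : NPC.Poly (fun p : α × ℕ => p.1) := NPC.Poly.fst NPC.Poly.id
  have hv : NPC.Poly (fun p : α × ℕ => p.2) := NPC.Poly.snd NPC.Poly.id
  refine poly_onPickL hn.toPoly (poly_low hn hg hs hη hE hU) ?_
    (poly_fixInL (s := fun p : α × ℕ => s p.1) (hn.comp hf) (hs.comp hf) hv)
  refine poly_onPickL hn.toPoly (poly_high hn hg hs hη hE hU) ?_
    (poly_fixOutL (s := fun p : α × ℕ => s p.1) (hn.comp hf) (hs.comp hf) hv)
  refine NPC.Poly.cond (NPC.Poly.ile (NPC.Poly.natCast hη) (poly_upL hn hg hR hv0)) ?_ ?_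
  · exact poly_onPickL hn.toPoly (poly_low hn hg hs hη (poly_nth hR hv0) hU) hs
      (poly_arcL (s := fun p : α × ℕ => s p.1) (hn.comp hf) (hs.comp hf) (hv0.comp hf) hv)
  · exact poly_onPickL hn.toPoly (poly_high hn hg hs hη hE (poly_TpL hn hR hv0)) hs
      (poly_arcL (s := fun p : α × ℕ => s p.1) (hn.comp hf) (hs.comp hf) hv (hv0.comp hf))

end

attribute [local irreducible] round1L

section
variable {f : α → List Bool → ℤ} {s : α → StL}

theorem poly_curL (hn : UPoly n) (hf : NPC.Poly (fun p : α × List Bool => f p.1 p.2))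
    (hs : NPC.Poly s) : NPC.Poly (fun p : α × List Bool => curL (n p.1) (f p.1) (s p.1) p.2) := by
  unfold curL
  have h1 : NPC.Poly (fun p : α × List Bool => p.1) := NPC.Poly.fst NPC.Poly.id
  have hn' : UPoly (fun p : α × List Bool => n p.1) := hn.comp h1
  have hs' : NPC.Poly (fun p : α × List Bool => s p.1) := hs.comp h1
  exact poly_app hf h1 (poly_orL hn' (NPC.Poly.fst hs')
    (poly_clL hn' (NPC.Poly.fst (NPC.Poly.snd hs')) (NPC.Poly.snd NPC.Poly.id)))

attribute [local irreducible] curL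

theorem poly_mroundL (hn : UPoly n) (hf : NPC.Poly (fun p : α × List Bool => f p.1 p.2))
    (hs : NPC.Poly s) : NPC.Poly (fun a => mroundL (n a) (f a) (s a)) := by
  unfold mroundL
  have hc := poly_curL hn hf hs
  have hR : NPC.Poly (fun a => (s a).2.2) := NPC.Poly.snd (NPC.Poly.snd hs)
  have h1 : NPC.Poly (fun p : α × ℕ => p.1) := NPC.Poly.fst NPC.Poly.id
  have h2 : NPC.Poly (fun p : α × ℕ => p.2) := NPC.Poly.snd NPC.Poly.id
  have k1 : NPC.Poly (fun p : (α × ℕ) × ℕ => p.1.1) := NPC.Poly.fst (NPC.Poly.fst NPC.Poly.id)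
  have k2 : NPC.Poly (fun p : (α × ℕ) × ℕ => p.1.2) := NPC.Poly.snd (NPC.Poly.fst NPC.Poly.id)
  have k3 : NPC.Poly (fun p : (α × ℕ) × ℕ => p.2) := NPC.Poly.snd NPC.Poly.id
  have he : NPC.Poly (fun p : α × ℕ => etaL (n p.1) (curL (n p.1) (f p.1) (s p.1))
      (s p.1).2.2 p.2) :=
    poly_etaL (g := fun p : α × ℕ => curL (n p.1) (f p.1) (s p.1)) (hn.comp h1)
      (poly_shift (g := fun a X => curL (n a) (f a) (s a) X) hc h1) (hR.comp h1) h2
  have hall : NPC.Poly (fun p : α × ℕ => (List.range (n p.1)).all fun u =>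
      decide (etaL (n p.1) (curL (n p.1) (f p.1) (s p.1)) (s p.1).2.2 u ≤
        etaL (n p.1) (curL (n p.1) (f p.1) (s p.1)) (s p.1).2.2 p.2)) := by
    refine NPC.Poly.all (p := fun (p : α × ℕ) u =>
      decide (etaL (n p.1) (curL (n p.1) (f p.1) (s p.1)) (s p.1).2.2 u ≤
        etaL (n p.1) (curL (n p.1) (f p.1) (s p.1)) (s p.1).2.2 p.2)) (hn.comp h1).range ?_
    have e1 : NPC.Poly (fun p : (α × ℕ) × ℕ =>
        etaL (n p.1.1) (curL (n p.1.1) (f p.1.1) (s p.1.1)) (s p.1.1).2.2 p.2) :=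
      he.comp (NPC.Poly.pair k1 k3)
    have e2 : NPC.Poly (fun p : (α × ℕ) × ℕ =>
        etaL (n p.1.1) (curL (n p.1.1) (f p.1.1) (s p.1.1)) (s p.1.1).2.2 p.1.2) :=
      he.comp (NPC.Poly.pair k1 k2)
    exact NPC.Poly.ile e1 e2
  have hpk : NPC.Poly (fun a => pickL (n a) (fun v => (List.range (n a)).all fun u =>
      decide (etaL (n a) (curL (n a) (f a) (s a)) (s a).2.2 u ≤
        etaL (n a) (curL (n a) (f a) (s a)) (s a).2.2 v))) :=
    poly_pickL (p := fun a v => (List.range (n a)).all fun u =>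
      decide (etaL (n a) (curL (n a) (f a) (s a)) (s a).2.2 u ≤
        etaL (n a) (curL (n a) (f a) (s a)) (s a).2.2 v)) hn hall
  have hr1 : NPC.Poly (fun p : α × ℕ => round1L (n p.1) (curL (n p.1) (f p.1) (s p.1)) (s p.1)
      p.2 (etaL (n p.1) (curL (n p.1) (f p.1) (s p.1)) (s p.1).2.2 p.2).toNat) :=
    poly_round1L (n := fun p : α × ℕ => n p.1) (s := fun p : α × ℕ => s p.1)
      (g := fun p : α × ℕ => curL (n p.1) (f p.1) (s p.1)) (v0 := fun p => p.2)
      (η := fun p : α × ℕ =>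
        (etaL (n p.1) (curL (n p.1) (f p.1) (s p.1)) (s p.1).2.2 p.2).toNat) (hn.comp h1)
      (poly_shift (g := fun a X => curL (n a) (f a) (s a) X) hc h1) (hs.comp h1) h2
      (NPC.Poly.toNat he)
  have hb : NPC.Poly (fun p : α × ℕ =>
      bif decide (etaL (n p.1) (curL (n p.1) (f p.1) (s p.1)) (s p.1).2.2 p.2 ≤ 0) then s p.1 else
      round1L (n p.1) (curL (n p.1) (f p.1) (s p.1)) (s p.1)
      p.2 (etaL (n p.1) (curL (n p.1) (f p.1) (s p.1)) (s p.1).2.2 p.2).toNat) :=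
    NPC.Poly.cond (NPC.Poly.ile he (NPC.Poly.const 0)) (hs.comp h1) hr1
  exact poly_onPickL (y := fun a v0 =>
      bif decide (etaL (n a) (curL (n a) (f a) (s a)) (s a).2.2 v0 ≤ 0) then s a else
      round1L (n a) (curL (n a) (f a) (s a)) (s a) v0
        (etaL (n a) (curL (n a) (f a) (s a)) (s a).2.2 v0).toNat) hn.toPoly hpk hs hb

end


end Pool.Agent.TH660.SC
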