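import Pool.Agent.TH660.SC.AlgP

/-!
# Minimisation of submodular functions in polynomial time: the iteration
-/

namespace Pool.Agent.TH660.SC

open Pool.Agent.NPC

variable {α : Type} [TEnc α] {n : α → ℕ}

/-! ### size of the states -/

/-- bounded families -/
def Bd (n : ℕ) (b : List (List Bool)) : Prop := b.length ≤ n ∧ ∀ x ∈ b, sz x ≤ n * 4 + 1

/-- bounded states -/
def BS (n : ℕ) (s : StL) : Prop := sz s.1 ≤ n * 4 + 1 ∧ Bd n s.2.1 ∧ Bd n s.2.2

theorem Bd.map {n : ℕ} {f : ℕ → List Bool} (h : ∀ i, sz (f i) ≤ n * 4 + 1) :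
    Bd n ((List.range n).map f) := by
  refine ⟨by simp, ?_⟩
  intro x hx
  obtain ⟨i, _, rfl⟩ := List.mem_map.1 hx
  exact h i

theorem Bd.getD {n : ℕ} {b : List (List Bool)} (h : Bd n b) (v : ℕ) :
    sz (b.getD v []) ≤ n * 4 + 1 := by
  rw [List.getD_eq_getElem?_getD]
  cases hb : b[v]? with
  | none => simp
  | some x => exact h.2 x (List.mem_of_getElem? hb)

theorem Bd.sz_le {n : ℕ} {b : List (List Bool)} (h : Bd n b) :
    sz b ≤ n * (n * 4 + 2) + 1 := by
  refine (sz_le_length_mul _ (n * 4 + 1) h.2).trans ?_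
  exact Nat.add_le_add_right (Nat.mul_le_mul_right (n * 4 + 1 + 1) h.1) 1

theorem BS.sz_le {n : ℕ} {s : StL} (h : BS n s) : sz s ≤ n * 4 + 2 * (n * (n * 4 + 2)) + 5 := by
  obtain ⟨h1, h2, h3⟩ := h
  have h2 := h2.sz_le
  have h3 := h3.sz_le
  rw [show s = (s.1, s.2.1, s.2.2) from rfl, sz_pair, sz_pair]
  omega

theorem sz_empL (n : ℕ) : sz (empL n) ≤ n * 4 + 1 := by
  unfold empL
  exact sz_mapRange_bool n _

theorem Bd_sgl (n : ℕ) : Bd n (sglL n) := by
  unfold sglL
  exact Bd.map fun _ => by
    unfold insL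
    exact sz_mapRange_bool n _

theorem Bd_kill {n : ℕ} {b : List (List Bool)} (h : Bd n b) (w : ℕ) : Bd n (killL n b w) := by
  refine Bd.map fun v => ?_
  cases decide (v = w)
  · exact h.getD v
  · exact sz_empL n

theorem BS.round1 {n : ℕ} {s : StL} (h : BS n s) (g : List Bool → ℤ) (v0 η : ℕ) :
    BS n (round1L n g s v0 η) := by
  obtain ⟨h1, h2, h3⟩ := h
  have hP : ∀ (k : ℕ) (a : StL) (b : ℕ → StL), BS n a → (∀ w, BS n (b w)) →
      BS n (onPickL n k a b) := by
    intro k a b ha hb
    unfold onPickL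
    cases decide (k < n)
    · exact ha
    · exact hb k
  have hA : ∀ x y, BS n (arcL n s x y) := by
    intro x y
    unfold arcL
    cases (s.2.2.getD y []).getD x false
    · refine ⟨h1, h2, Bd.map fun v => ?_⟩
      cases (s.2.2.getD v []).getD x false
      · exact h3.getD v
      · exact sz_mapRange_bool n _
    · refine ⟨h1, Bd.map fun v => ?_, Bd_sgl n⟩
      cases decide (v = y)
      · cases decide (v = x)
        · exact h2.getD v
        · exact sz_mapRange_bool n _
      · exact sz_empL n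
  unfold round1L
  refine hP _ _ _ (hP _ _ _ ?_ fun w => ⟨h1, Bd_kill h2 w, Bd_sgl n⟩)
    fun w => ⟨sz_mapRange_bool n _, Bd_kill h2 w, Bd_sgl n⟩
  cases decide ((η : ℤ) ≤ upL n g s.2.2 v0)
  · exact hP _ _ _ ⟨h1, h2, h3⟩ fun w => hA w v0
  · exact hP _ _ _ ⟨h1, h2, h3⟩ fun w => hA v0 w

theorem BS.mround {n : ℕ} {s : StL} (h : BS n s) (f : List Bool → ℤ) :
    BS n (mroundL n f s) := by
  unfold mroundL onPickL
  cases decide (pickL n (fun v => (List.range n).all fun u =>
      decide (etaL n (curL n f s) s.2.2 u ≤ etaL n (curL n f s) s.2.2 v)) < n)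
  · exact h
  · simp only [cond_true]
    generalize pickL n (fun v => (List.range n).all fun u =>
      decide (etaL n (curL n f s) s.2.2 u ≤ etaL n (curL n f s) s.2.2 v)) = v0
    cases decide (etaL n (curL n f s) s.2.2 v0 ≤ 0)
    · exact h.round1 _ _ _
    · exact h

theorem BS_init (n : ℕ) : BS n (initL n) := ⟨sz_empL n, Bd_sgl n, Bd_sgl n⟩

/-- the number of rounds is computable in unary -/
theorem uPoly_rounds (hn : UPoly n) : UPoly (fun a => rounds (n a)) := by
  unfold rounds
  exact NPC.Poly.congr ((hn.add (UPoly.const 1)).mul ((hn.mul hn).add (UPoly.const 1)))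
    fun a => by
      congr 1
      ring

theorem poly_initL (hn : UPoly n) : NPC.Poly (fun a => initL (n a)) :=
  NPC.Poly.pair (poly_empL hn) (NPC.Poly.pair (poly_sglL hn) (poly_sglL hn))

theorem BS_iter (n : ℕ) (f : List Bool → ℤ) (k : ℕ) : BS n ((mroundL n f)^[k] (initL n)) := by
  induction k with
  | zero => exact BS_init _
  | succ k ih =>
    rw [Function.iterate_succ_apply']
    exact ih.mround _

attribute [local irreducible] mroundL initL rounds curL empL

theorem poly_step (hn : UPoly n) {f : α → List Bool → ℤ}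
    (hf : NPC.Poly (fun p : α × List Bool => f p.1 p.2)) :
    NPC.Poly (fun p : α × StL => mroundL (n p.1) (f p.1) p.2) := by
  have h1 : NPC.Poly (fun p : α × StL => p.1) := NPC.Poly.fst NPC.Poly.id
  have h2 : NPC.Poly (fun p : α × StL => p.2) := NPC.Poly.snd NPC.Poly.id
  exact poly_mroundL (n := fun p : α × StL => n p.1) (f := fun p : α × StL => f p.1)
    (s := fun p : α × StL => p.2) (hn.comp h1) (poly_shift hf h1) h2

theorem poly_iterate (hn : UPoly n) {f : α → List Bool → ℤ}
    (hf : NPC.Poly (fun p : α × List Bool => f p.1 p.2)) :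
    NPC.Poly (fun a => (mroundL (n a) (f a))^[rounds (n a)] (initL (n a))) := by
  obtain ⟨r, hr⟩ := NPC.Poly.sz_le hn
  have hn2 : ∀ a, n a ≤ r.eval (sz a) := by
    intro a
    have h1 := hr a
    have h2 := length_lt_sz (List.replicate (n a) ())
    rw [List.length_replicate] at h2
    omega
  have hit := NPC.Poly.iterLen (l := fun a => List.replicate (rounds (n a)) ())
    (s := fun a => initL (n a)) (F := fun a s => mroundL (n a) (f a) s)
    (uPoly_rounds hn) (poly_initL hn) (poly_step hn hf)
    (r * Polynomial.C 4 + Polynomial.C 2 * (r * (r * Polynomial.C 4 + Polynomial.C 2)) +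
      Polynomial.C 5) (by
      intro a k _
      refine (BS_iter (n a) (f a) k).sz_le.trans ?_
      have h1 := hn2 a
      have h3 : n a * (n a * 4 + 2) ≤ r.eval (sz a) * (r.eval (sz a) * 4 + 2) :=
        Nat.mul_le_mul h1 (by omega)
      simp only [Polynomial.eval_add, Polynomial.eval_mul, Polynomial.eval_C]
      omega)
  refine hit.congr fun a => ?_
  rw [List.length_replicate]

/-- **Minimisation of submodular functions in polynomial time**: the computation. -/
theorem poly_minvalL (hn : UPoly n) {f : α → List Bool → ℤ}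
    (hf : NPC.Poly (fun p : α × List Bool => f p.1 p.2)) :
    NPC.Poly (fun a => minvalL (n a) (f a)) := by
  have hit' := poly_iterate hn hf
  have h1 : NPC.Poly (fun p : α × List Bool =>
      curL (n p.1) (f p.1) ((mroundL (n p.1) (f p.1))^[rounds (n p.1)] (initL (n p.1))) p.2) :=
    poly_curL (s := fun a => (mroundL (n a) (f a))^[rounds (n a)] (initL (n a))) hn hf hit'
  have h2 : NPC.Poly (fun a => ((a, empL (n a)) : α × List Bool)) :=
    NPC.Poly.pair NPC.Poly.id (poly_empL hn)
  exact h1.comp h2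

end Pool.Agent.TH660.SC
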