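import Pool.Agent.TH660.SC.Dual

/-!
# Submodular functions and a partial order of implications
-/

namespace Pool.Agent.TH660.SC

open Finset

variable {n : ℕ}

/-- `R v` is the set of elements implied by `v`; a partial order. -/
structure IsPO (R : Fin n → Finset (Fin n)) : Prop where
  refl : ∀ v, v ∈ R v
  trans : ∀ u v, u ∈ R v → R u ⊆ R v
  anti : ∀ u v, u ∈ R v → v ∈ R u → u = v

/-- closed sets -/
def Closed (R : Fin n → Finset (Fin n)) (S : Finset (Fin n)) : Prop := ∀ v ∈ S, R v ⊆ S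

/-- closure -/
def cl (R : Fin n → Finset (Fin n)) (X : Finset (Fin n)) : Finset (Fin n) :=
  univ.filter fun u => ∃ v ∈ X, u ∈ R v

/-- the elements which do not imply `v` -/
def Tp (R : Fin n → Finset (Fin n)) (v : Fin n) : Finset (Fin n) :=
  univ.filter fun u => v ∉ R u

variable {R : Fin n → Finset (Fin n)}

theorem mem_cl {X : Finset (Fin n)} {u : Fin n} : u ∈ cl R X ↔ ∃ v ∈ X, u ∈ R v := by
  simp [cl]

theorem mem_Tp {u v : Fin n} : u ∈ Tp R v ↔ v ∉ R u := by simp [Tp]

theorem subset_cl (h : IsPO R) (X : Finset (Fin n)) : X ⊆ cl R X := fun v hv =>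
  mem_cl.2 ⟨v, hv, h.refl v⟩

theorem closed_cl (h : IsPO R) (X : Finset (Fin n)) : Closed R (cl R X) := by
  intro v hv u hu
  obtain ⟨w, hw, hvw⟩ := mem_cl.1 hv
  exact mem_cl.2 ⟨w, hw, h.trans _ _ hvw hu⟩

theorem cl_subset {X S : Finset (Fin n)} (hS : Closed R S) (hX : X ⊆ S) : cl R X ⊆ S := by
  intro u hu
  obtain ⟨w, hw, huw⟩ := mem_cl.1 hu
  exact hS w (hX hw) huw

theorem cl_eq (h : IsPO R) {S : Finset (Fin n)} (hS : Closed R S) : cl R S = S :=
  Subset.antisymm (cl_subset hS (Subset.refl _)) (subset_cl h S)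

theorem cl_mono {X Y : Finset (Fin n)} (h : X ⊆ Y) : cl R X ⊆ cl R Y := by
  intro u hu
  obtain ⟨w, hw, huw⟩ := mem_cl.1 hu
  exact mem_cl.2 ⟨w, h hw, huw⟩

theorem cl_union (X Y : Finset (Fin n)) : cl R (X ∪ Y) = cl R X ∪ cl R Y := by
  ext u
  simp only [mem_cl, mem_union]
  constructor
  · rintro ⟨v, hv | hv, h⟩
    · exact Or.inl ⟨v, hv, h⟩
    · exact Or.inr ⟨v, hv, h⟩
  · rintro (⟨v, hv, h⟩ | ⟨v, hv, h⟩)
    · exact ⟨v, Or.inl hv, h⟩
    · exact ⟨v, Or.inr hv, h⟩

theorem Closed.inter {S T : Finset (Fin n)} (hS : Closed R S) (hT : Closed R T) :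
    Closed R (S ∩ T) := fun v hv =>
  subset_inter (hS v (mem_inter.1 hv).1) (hT v (mem_inter.1 hv).2)

theorem closed_R (h : IsPO R) (v : Fin n) : Closed R (R v) := fun u hu => h.trans u v hu

theorem closed_Tp (h : IsPO R) (v : Fin n) : Closed R (Tp R v) := by
  intro u hu w hw
  rw [mem_Tp] at hu ⊢
  exact fun hv => hu (h.trans _ _ hw hv)

theorem closed_univ : Closed R univ := fun _ _ => subset_univ _

theorem closed_empty : Closed R ∅ := fun _ hv => absurd hv (notMem_empty _)

theorem notMem_Tp_self (h : IsPO R) (v : Fin n) : v ∉ Tp R v := fun hv =>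
  mem_Tp.1 hv (h.refl v)

/-- upper marginal -/
def up (g : Finset (Fin n) → ℤ) (R : Fin n → Finset (Fin n)) (v : Fin n) : ℤ :=
  g (R v) - g ((R v).erase v)

/-- lower marginal -/
def lo (g : Finset (Fin n) → ℤ) (R : Fin n → Finset (Fin n)) (v : Fin n) : ℤ :=
  g (insert v (Tp R v)) - g (Tp R v)

/-- weights -/
def cc (g : Finset (Fin n) → ℤ) (R : Fin n → Finset (Fin n)) (v : Fin n) : ℤ := max 0 (-(lo g R v))

theorem cc_nonneg (g : Finset (Fin n) → ℤ) (R : Fin n → Finset (Fin n)) (v : Fin n) :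
    0 ≤ cc g R v := le_max_left _ _

variable {g : Finset (Fin n) → ℤ}

theorem marg_le (hg : SubMod g) (h : IsPO R) {S : Finset (Fin n)} {v : Fin n} (hv : v ∉ S)
    (hS : Closed R (insert v S)) : g (insert v S) - g S ≤ up g R v := by
  have h1 := hg S (R v)
  have e1 : S ∪ R v = insert v S := by
    apply Subset.antisymm
    · exact union_subset (subset_insert _ _) (hS v (mem_insert_self _ _))
    · intro x hx
      rcases mem_insert.1 hx with rfl | hx
      · exact mem_union_right _ (h.refl _)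
      · exact mem_union_left _ hx
  have e2 : S ∩ R v = (R v).erase v := by
    ext x
    simp only [mem_inter, mem_erase]
    constructor
    · rintro ⟨a, b⟩
      exact ⟨fun e => hv (e ▸ a), b⟩
    · rintro ⟨a, b⟩
      rcases mem_insert.1 (hS v (mem_insert_self _ _) b) with rfl | hx
      · exact absurd rfl a
      · exact ⟨hx, b⟩
  rw [e1, e2] at h1
  unfold up
  linarith

theorem le_marg (hg : SubMod g) (h : IsPO R) {S : Finset (Fin n)} {v : Fin n} (hv : v ∉ S)
    (hS : Closed R S) : lo g R v ≤ g (insert v S) - g S := by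
  have hST : S ⊆ Tp R v := by
    intro x hx
    rw [mem_Tp]
    exact fun hvx => hv (hS x hx hvx)
  have h1 := hg (insert v S) (Tp R v)
  have e1 : insert v S ∪ Tp R v = insert v (Tp R v) := by
    rw [insert_union, union_eq_right.2 hST]
  have e2 : insert v S ∩ Tp R v = S := by
    rw [insert_inter_of_notMem (notMem_Tp_self h v), inter_eq_left.2 hST]
  rw [e1, e2] at h1
  unfold lo
  linarith

/-- Adding elements one by one between closed sets. -/
theorem chain_ind (h : IsPO R) {S : Finset (Fin n)} (hS : Closed R S)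
    {p : Finset (Fin n) → Prop} (h0 : p S)
    (step : ∀ Q v, S ⊆ Q → Closed R Q → v ∉ Q → Closed R (insert v Q) → p Q → p (insert v Q)) :
    ∀ (k : ℕ) (S' : Finset (Fin n)), Closed R S' → S ⊆ S' → (S' \ S).card = k → p S' := by
  intro k
  induction k with
  | zero =>
    intro S' _ hSS hk
    have : S' = S := by
      apply Subset.antisymm _ hSS
      intro x hx
      by_contra hxS
      have : x ∈ S' \ S := mem_sdiff.2 ⟨hx, hxS⟩
      rw [card_eq_zero] at hk
      rw [hk] at this
      simp at this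
    rw [this]
    exact h0
  | succ k ih =>
    intro S' hS' hSS hk
    have hne : (S' \ S).Nonempty := by
      rw [← card_pos, hk]; omega
    obtain ⟨v, hv, hmax⟩ := exists_max_image (S' \ S) (fun u => (R u).card) hne
    obtain ⟨hv1, hv2⟩ := mem_sdiff.1 hv
    have hcl : Closed R (S'.erase v) := by
      intro u hu
      obtain ⟨hu1, hu2⟩ := mem_erase.1 hu
      intro x hx
      rw [mem_erase]
      refine ⟨?_, hS' u hu2 hx⟩
      rintro rfl
      have huS : u ∉ S := fun huS => hv2 (hS u huS hx)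
      have h1 := hmax u (mem_sdiff.2 ⟨hu2, huS⟩)
      have h2 : R x ⊂ R u := by
        refine ⟨h.trans _ _ hx, fun hsub => ?_⟩
        exact hu1 (h.anti _ _ (hsub (h.refl u)) hx)
      exact absurd (card_lt_card h2) (by omega)
    have hSe : S ⊆ S'.erase v := by
      intro x hx
      rw [mem_erase]
      exact ⟨fun e => hv2 (e ▸ hx), hSS hx⟩
    have hk' : (S'.erase v \ S).card = k := by
      have : S'.erase v \ S = (S' \ S).erase v := by
        ext x; simp only [mem_sdiff, mem_erase]; tauto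
      rw [this, card_erase_of_mem hv, hk]
      omega
    have e : insert v (S'.erase v) = S' := insert_erase hv1
    have := step (S'.erase v) v hSe hcl (by simp) (by rw [e]; exact hS') (ih _ hcl hSe hk')
    rwa [e] at this

/-- the monotone modification -/
def hh (g : Finset (Fin n) → ℤ) (R : Fin n → Finset (Fin n)) (S : Finset (Fin n)) : ℤ :=
  g S + ∑ w ∈ S, cc g R w

theorem hh_sub (hg : SubMod g) (X Y : Finset (Fin n)) :
    hh g R (X ∩ Y) + hh g R (X ∪ Y) ≤ hh g R X + hh g R Y := by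
  have h1 := hg X Y
  have h2 := Finset.sum_union_inter (s₁ := X) (s₂ := Y) (f := cc g R)
  unfold hh
  linarith

theorem hh_mono (hg : SubMod g) (h : IsPO R) {S S' : Finset (Fin n)} (hS : Closed R S)
    (hS' : Closed R S') (hSS : S ⊆ S') : hh g R S ≤ hh g R S' := by
  refine chain_ind h hS (p := fun Q => hh g R S ≤ hh g R Q) le_rfl ?_ _ S' hS' hSS rfl
  intro Q v _ hQ hv hQv ih
  have h1 := le_marg hg h hv hQ
  refine ih.trans ?_
  unfold hh
  rw [sum_insert hv]
  have h2 : -(lo g R v) ≤ cc g R v := le_max_right _ _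
  linarith

theorem hh_le (hg : SubMod g) (h : IsPO R) {η : ℤ} (hη : 0 ≤ η) (hup : ∀ v, up g R v ≤ η)
    (hlo : ∀ v, -(lo g R v) ≤ η) {S S' : Finset (Fin n)} (hS : Closed R S)
    (hS' : Closed R S') (hSS : S ⊆ S') : hh g R S' ≤ hh g R S + 2 * η * (S' \ S).card := by
  refine chain_ind h hS (p := fun Q => hh g R Q ≤ hh g R S + 2 * η * (Q \ S).card) (by simp)
    ?_ _ S' hS' hSS rfl
  intro Q v hSQ hQ hv hQv ih
  have h1 := marg_le hg h hv hQv
  have h2 : cc g R v ≤ η := max_le hη (hlo v)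
  have h3 := hup v
  have e : (insert v Q \ S).card = (Q \ S).card + 1 := by
    have : insert v Q \ S = insert v (Q \ S) := by
      rw [insert_sdiff_of_notMem]
      exact fun hvS => hv (hSQ hvS)
    rw [this, card_insert_of_notMem]
    simp [hv]
  rw [e]
  unfold hh at ih ⊢
  rw [sum_insert hv]
  push_cast
  linarith

/-- The extension of `g` from the closed sets to all sets. -/
def ext (g : Finset (Fin n) → ℤ) (R : Fin n → Finset (Fin n)) (X : Finset (Fin n)) : ℤ :=
  g (cl R X) + ∑ w ∈ cl R X \ X, cc g R w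

theorem ext_eq (h : IsPO R) (X : Finset (Fin n)) :
    ext g R X = hh g R (cl R X) - ∑ w ∈ X, cc g R w := by
  unfold ext hh
  have := Finset.sum_sdiff (f := cc g R) (subset_cl h X)
  linarith

theorem ext_closed (h : IsPO R) {S : Finset (Fin n)} (hS : Closed R S) : ext g R S = g S := by
  unfold ext
  rw [cl_eq h hS]
  simp

theorem le_ext (X : Finset (Fin n)) : g (cl R X) ≤ ext g R X := by
  unfold ext
  have : 0 ≤ ∑ w ∈ cl R X \ X, cc g R w := Finset.sum_nonneg fun w _ => cc_nonneg g R w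
  linarith

theorem ext_sub (hg : SubMod g) (h : IsPO R) : SubMod (ext g R) := by
  intro X Y
  rw [ext_eq h, ext_eq h, ext_eq h, ext_eq h, cl_union]
  have h1 := hh_sub (R := R) hg (cl R X) (cl R Y)
  have h2 : hh g R (cl R (X ∩ Y)) ≤ hh g R (cl R X ∩ cl R Y) :=
    hh_mono hg h (closed_cl h _) ((closed_cl h _).inter (closed_cl h _))
      (subset_inter (cl_mono inter_subset_left) (cl_mono inter_subset_right))
  have h3 := Finset.sum_union_inter (s₁ := X) (s₂ := Y) (f := cc g R)
  linarith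

theorem ext_marg (hg : SubMod g) (h : IsPO R) {η : ℤ} (hη : 0 ≤ η) (hup : ∀ v, up g R v ≤ η)
    (hlo : ∀ v, -(lo g R v) ≤ η) (X : Finset (Fin n)) (v : Fin n) :
    -η ≤ ext g R (insert v X) - ext g R X ∧
      ext g R (insert v X) - ext g R X ≤ 2 * η * n := by
  by_cases hv : v ∈ X
  · rw [insert_eq_of_mem hv]
    constructor
    · linarith
    · have : (0 : ℤ) ≤ 2 * η * n := by positivity
      linarith
  rw [ext_eq h, ext_eq h, sum_insert hv]
  have hsub : cl R X ⊆ cl R (insert v X) := cl_mono (subset_insert _ _)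
  have h1 := hh_mono hg h (closed_cl h X) (closed_cl h (insert v X)) hsub
  have h2 := hh_le hg h hη hup hlo (closed_cl h X) (closed_cl h (insert v X)) hsub
  have h3 : cc g R v ≤ η := max_le hη (hlo v)
  have h4 := cc_nonneg g R v
  have h5 : (cl R (insert v X) \ cl R X).card ≤ n := by
    have := card_le_univ (cl R (insert v X) \ cl R X)
    simpa using this
  have h6 : 2 * η * ((cl R (insert v X) \ cl R X).card : ℤ) ≤ 2 * η * n :=
    mul_le_mul_of_nonneg_left (by exact_mod_cast h5) (by positivity)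
  constructor <;> linarith

/-- The extension, restricted to an interval. -/
def Phi (g : Finset (Fin n) → ℤ) (R : Fin n → Finset (Fin n)) (A B X : Finset (Fin n)) : ℤ :=
  ext g R ((X ∪ A) ∩ B)

theorem Phi_sub (hg : SubMod g) (h : IsPO R) (A B : Finset (Fin n)) : SubMod (Phi g R A B) := by
  intro X Y
  unfold Phi
  have h1 := ext_sub hg h ((X ∪ A) ∩ B) ((Y ∪ A) ∩ B)
  have e1 : (X ∪ A) ∩ B ∩ ((Y ∪ A) ∩ B) = (X ∩ Y ∪ A) ∩ B := by
    ext x; simp only [mem_inter, mem_union]; tauto
  have e2 : (X ∪ A) ∩ B ∪ (Y ∪ A) ∩ B = (X ∪ Y ∪ A) ∩ B := by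
    ext x; simp only [mem_inter, mem_union]; tauto
  rwa [e1, e2] at h1

theorem Phi_marg (hg : SubMod g) (h : IsPO R) {η : ℤ} (hη : 0 ≤ η) (hup : ∀ v, up g R v ≤ η)
    (hlo : ∀ v, -(lo g R v) ≤ η) (A B X : Finset (Fin n)) (v : Fin n) :
    (Phi g R A B (insert v X) - Phi g R A B X) ^ 2 ≤ (2 * η * n) ^ 2 := by
  have hn : (1 : ℤ) ≤ n := by
    have := v.isLt
    omega
  have key : -η ≤ Phi g R A B (insert v X) - Phi g R A B X ∧
      Phi g R A B (insert v X) - Phi g R A B X ≤ 2 * η * n := by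
    unfold Phi
    by_cases hv : v ∈ B
    · have e : (insert v X ∪ A) ∩ B = insert v ((X ∪ A) ∩ B) := by
        ext x; simp only [mem_inter, mem_union, mem_insert]
        constructor
        · rintro ⟨(h | h) | h, hB⟩ <;> tauto
        · rintro (rfl | ⟨h, hB⟩)
          · exact ⟨Or.inl (Or.inl rfl), hv⟩
          · tauto
      rw [e]
      exact ext_marg hg h hη hup hlo _ _
    · have e : (insert v X ∪ A) ∩ B = (X ∪ A) ∩ B := by
        ext x; simp only [mem_inter, mem_union, mem_insert]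
        constructor
        · rintro ⟨(h | h) | h, hB⟩
          · exact absurd hB (h ▸ hv)
          · tauto
          · tauto
        · tauto
      rw [e]
      have : (0 : ℤ) ≤ 2 * η * n := by positivity
      constructor <;> linarith
  have h1 : η ≤ 2 * η * n := by nlinarith
  apply sq_le_sq'
  · linarith [key.1]
  · exact key.2

theorem Phi_G (hg : SubMod g) (h : IsPO R) {η : ℕ} (hup : ∀ v, up g R v ≤ η)
    (hlo : ∀ v, -(lo g R v) ≤ η) (A B : Finset (Fin n)) (y : Fin n → ℕ) :
    ∑ v, gr (Phi g R A B) y v ^ 2 ≤ ((4 * n ^ 3 * η ^ 2 : ℕ) : ℤ) := by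
  have : ∀ v ∈ (univ : Finset (Fin n)), gr (Phi g R A B) y v ^ 2 ≤ (2 * (η : ℤ) * n) ^ 2 :=
    fun v _ => Phi_marg hg h (by positivity) hup hlo A B _ v
  refine (Finset.sum_le_sum this).trans ?_
  rw [Finset.sum_const, card_univ, Fintype.card_fin, nsmul_eq_mul]
  push_cast
  apply le_of_eq
  ring

/-- A minimiser in the interval is a minimiser of the modified function. -/
theorem Phi_min (h : IsPO R) {M : Finset (Fin n)} (hM : ∀ Z, g M ≤ g Z) (hMc : Closed R M)
    {A B : Finset (Fin n)} (hA : A ⊆ M) (hB : M ⊆ B) (Z : Finset (Fin n)) :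
    Phi g R A B M ≤ Phi g R A B Z := by
  have e : (M ∪ A) ∩ B = M := by
    rw [union_eq_left.2 hA, inter_eq_left.2 hB]
  unfold Phi
  rw [e, ext_closed h hMc]
  exact (hM _).trans (le_ext _)

end Pool.Agent.TH660.SC
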