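import Pool.Agent.TH660.SC.Engine

/-!
# The dual vector of the subgradient descent
-/

namespace Pool.Agent.TH660.SC

open Finset

variable {n : ℕ}

/-- The sum of the greedy vectors of the first `T` iterates. -/
def dual (F : Finset (Fin n) → ℤ) (D T : ℕ) (v : Fin n) : ℤ :=
  ∑ t ∈ range T, gr F (iter F D t) v

theorem gr_sum (F : Finset (Fin n) → ℤ) (y : Fin n → ℕ) :
    ∑ v, gr F y v = F univ - F ∅ := by
  apply init_ind (y := y) (p := fun s => ∑ v ∈ s, gr F y v = F s - F ∅)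
  · simp
  · intro a _ _ ha ih
    rw [sum_insert ha, ih]
    unfold gr
    ring

theorem dual_le {F : Finset (Fin n) → ℤ} (hF : SubMod F) (D T : ℕ) (Z : Finset (Fin n)) :
    ∑ v ∈ Z, dual F D T v ≤ T * (F Z - F ∅) := by
  unfold dual
  rw [Finset.sum_comm]
  refine (Finset.sum_le_sum fun t _ => greedy_le hF (iter F D t) Z).trans ?_
  rw [Finset.sum_const, card_range, nsmul_eq_mul]

theorem dual_univ (F : Finset (Fin n) → ℤ) (D T : ℕ) :
    ∑ v, dual F D T v = T * (F univ - F ∅) := by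
  unfold dual
  rw [Finset.sum_comm, Finset.sum_congr rfl fun t _ => gr_sum F (iter F D t)]
  rw [Finset.sum_const, card_range, nsmul_eq_mul]

theorem pot_step' (F : Finset (Fin n) → ℤ) (D G : ℕ) (y : Fin n → ℕ)
    (Z : Finset (Fin n)) (hG : ∑ v, gr F y v ^ 2 ≤ (G : ℤ)) :
    pot D Z (step F D y) ≤ pot D Z y - 2 * (∑ v, gr F y v * (y v : ℤ) -
      D * ∑ v ∈ Z, gr F y v) + G := by
  have k3 : ∑ v, gr F y v * (if v ∈ Z then (D : ℤ) else 0) = D * ∑ v ∈ Z, gr F y v := by
    simp only [mul_ite, mul_zero]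
    rw [Finset.sum_ite_mem, Finset.univ_inter, ← Finset.sum_mul, mul_comm]
  have k4 : pot D Z (step F D y) ≤ ∑ v, ((y v : ℤ) - gr F y v -
      (if v ∈ Z then (D : ℤ) else 0)) ^ 2 := by
    apply Finset.sum_le_sum
    intro v _
    apply clip_sq
    · split_ifs <;> simp
    · split_ifs <;> simp
  have k5 : ∑ v, ((y v : ℤ) - gr F y v - (if v ∈ Z then (D : ℤ) else 0)) ^ 2 =
      pot D Z y - 2 * (∑ v, gr F y v * (y v : ℤ) -
        ∑ v, gr F y v * (if v ∈ Z then (D : ℤ) else 0)) + ∑ v, gr F y v ^ 2 := by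
    unfold pot
    rw [← Finset.sum_sub_distrib, Finset.mul_sum, ← Finset.sum_sub_distrib,
      ← Finset.sum_add_distrib]
    apply Finset.sum_congr rfl
    intro v _
    ring
  rw [k3] at k5
  linarith

theorem pot_zero (D : ℕ) (Z : Finset (Fin n)) : pot D Z (fun _ => 0) ≤ n * D ^ 2 := by
  unfold pot
  have : ∀ v ∈ (univ : Finset (Fin n)),
      (((0 : ℕ) : ℤ) - (if v ∈ Z then (D : ℤ) else 0)) ^ 2 ≤ (D : ℤ) ^ 2 := by
    intro v _
    split_ifs
    · simp
    · simp
  refine (Finset.sum_le_sum this).trans ?_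
  simp

theorem dual_min {F : Finset (Fin n) → ℤ} (hF : SubMod F) (D G T : ℕ)
    (hG : ∀ y : Fin n → ℕ, ∑ v, gr F y v ^ 2 ≤ (G : ℤ)) {M : Finset (Fin n)}
    (hM : ∀ Z, F M ≤ F Z) (Z : Finset (Fin n)) :
    2 * D * (∑ v ∈ M, dual F D T v - ∑ v ∈ Z, dual F D T v) ≤ n * D ^ 2 + T * G := by
  have key : ∀ t : ℕ, pot D Z (iter F D t) ≤ n * D ^ 2 -
      2 * (∑ s ∈ range t, ∑ v, gr F (iter F D s) v * (iter F D s v : ℤ) -
        D * ∑ s ∈ range t, ∑ v ∈ Z, gr F (iter F D s) v) + t * G := by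
    intro t
    induction t with
    | zero =>
      have h0 : pot D Z (iter F D 0) ≤ n * D ^ 2 := pot_zero D Z
      simpa using h0
    | succ t ih =>
      have h := pot_step' F D G (iter F D t) Z (hG _)
      have e : iter F D (t + 1) = step F D (iter F D t) := rfl
      rw [e, Finset.sum_range_succ, Finset.sum_range_succ]
      push_cast
      linarith
  have h1 := key T
  have h2 : (0 : ℤ) ≤ pot D Z (iter F D T) := Finset.sum_nonneg fun v _ => sq_nonneg _
  have h3 : (T : ℤ) * (D * (F M - F ∅)) ≤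
      ∑ s ∈ range T, ∑ v, gr F (iter F D s) v * (iter F D s v : ℤ) := by
    have : ∀ s ∈ range T, (D : ℤ) * (F M - F ∅) ≤
        ∑ v, gr F (iter F D s) v * (iter F D s v : ℤ) := fun s _ =>
      abel_ge _ D (F M) (iter_le F D s) (hM _) (fun v => hM _)
    refine le_trans ?_ (Finset.sum_le_sum this)
    simp
  have h4 := dual_le hF D T M
  have h5 : ∑ v ∈ Z, dual F D T v = ∑ s ∈ range T, ∑ v ∈ Z, gr F (iter F D s) v := by
    unfold dual
    rw [Finset.sum_comm]
  rw [← h5] at h1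
  have h6 : (D : ℤ) * ∑ v ∈ M, dual F D T v ≤ D * (T * (F M - F ∅)) :=
    mul_le_mul_of_nonneg_left h4 (by positivity)
  nlinarith

/-- An element with a very negative dual value lies in every minimiser. -/
theorem mem_of_dual {F : Finset (Fin n) → ℤ} (hF : SubMod F) (D G T : ℕ)
    (hG : ∀ y : Fin n → ℕ, ∑ v, gr F y v ^ 2 ≤ (G : ℤ)) {M : Finset (Fin n)}
    (hM : ∀ Z, F M ≤ F Z) {w : Fin n}
    (hw : 2 * D * dual F D T w < -(n * D ^ 2 + T * G)) : w ∈ M := by
  by_contra h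
  have := dual_min hF D G T hG hM (insert w M)
  rw [sum_insert h] at this
  nlinarith

/-- An element with a very large dual value lies in no minimiser. -/
theorem notMem_of_dual {F : Finset (Fin n) → ℤ} (hF : SubMod F) (D G T : ℕ)
    (hG : ∀ y : Fin n → ℕ, ∑ v, gr F y v ^ 2 ≤ (G : ℤ)) {M : Finset (Fin n)}
    (hM : ∀ Z, F M ≤ F Z) {w : Fin n}
    (hw : n * D ^ 2 + T * G < 2 * D * dual F D T w) : w ∉ M := by
  intro h
  have := dual_min hF D G T hG hM (M.erase w)
  have e := Finset.sum_erase_add M (dual F D T) h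
  nlinarith

end Pool.Agent.TH660.SC
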