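import Mathlib

/-!
# Minimising a submodular function with small marginals by projected subgradient descent

All data are integers: the iterates have entries in `{0, ..., D}`, a step subtracts the greedy
vector and truncates.
-/

namespace Pool.Agent.TH660.SC

open Finset

variable {n : ℕ}

/-- Submodular set functions. -/
def SubMod (F : Finset (Fin n) → ℤ) : Prop :=
  ∀ X Y : Finset (Fin n), F (X ∩ Y) + F (X ∪ Y) ≤ F X + F Y

/-- The elements before `v`, in the order of decreasing values of `y` (ties are broken by the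
index). -/
def prd (y : Fin n → ℕ) (v : Fin n) : Finset (Fin n) :=
  univ.filter fun u => y v < y u ∨ (y u = y v ∧ u < v)

/-- The greedy vector. -/
def gr (F : Finset (Fin n) → ℤ) (y : Fin n → ℕ) (v : Fin n) : ℤ :=
  F (insert v (prd y v)) - F (prd y v)

/-- the key of an element -/
def key (y : Fin n → ℕ) (v : Fin n) : ℕᵒᵈ ×ₗ Fin n := toLex (OrderDual.toDual (y v), v)

theorem key_lt {y : Fin n → ℕ} {u v : Fin n} : key y u < key y v ↔ u ∈ prd y v := by
  unfold key prd
  rw [Prod.Lex.toLex_lt_toLex, mem_filter]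
  simp

theorem key_inj (y : Fin n → ℕ) : Function.Injective (key y) := by
  intro u v h
  unfold key at h
  simpa using congrArg (fun p => (ofLex p).2) h

/-- initial segments -/
def Init (y : Fin n → ℕ) (s : Finset (Fin n)) : Prop := ∀ v ∈ s, prd y v ⊆ s

theorem init_ind {y : Fin n → ℕ} {p : Finset (Fin n) → Prop} (h0 : p ∅)
    (step : ∀ a, (∀ x ∈ prd y a, y a ≤ y x) → Init y (prd y a) → a ∉ prd y a → p (prd y a) →
      p (insert a (prd y a))) : p univ := by
  have key' : ∀ s : Finset (Fin n), Init y s → p s := by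
    intro s
    refine Finset.induction_on_max_value (key y) s (fun _ => h0) ?_
    · intro a s has hmax ih hI
      have hs : s = prd y a := by
        ext x
        rw [← key_lt]
        constructor
        · intro hx
          refine lt_of_le_of_ne (hmax x hx) fun h => ?_
          rw [key_inj y h] at hx
          exact has hx
        · intro hx
          have := hI a (mem_insert_self _ _) (key_lt.1 hx)
          rcases mem_insert.1 this with h | h
          · rw [h] at hx; exact absurd hx (lt_irrefl _)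
          · exact h
      have hIs : Init y s := by
        intro v hv u hu
        have h1 := hI v (mem_insert_of_mem hv) hu
        rcases mem_insert.1 h1 with h | h
        · rw [h] at hu
          exact absurd (key_lt.2 hu) (not_lt.2 (hmax v hv))
        · exact h
      rw [hs] at ih ⊢
      rw [hs] at hIs has
      refine step a ?_ hIs has (ih hIs)
      intro x hx
      rw [prd, mem_filter] at hx
      omega
  exact key' univ fun v _ => subset_univ _

theorem greedy_le {F : Finset (Fin n) → ℤ} (hF : SubMod F) (y : Fin n → ℕ)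
    (Z : Finset (Fin n)) : ∑ v ∈ Z, gr F y v ≤ F Z - F ∅ := by
  have : ∑ v ∈ Z ∩ univ, gr F y v ≤ F (Z ∩ univ) - F ∅ := by
    apply init_ind (y := y) (p := fun s => ∑ v ∈ Z ∩ s, gr F y v ≤ F (Z ∩ s) - F ∅)
    · simp
    · intro a _ _ ha ih
      by_cases haZ : a ∈ Z
      · have e : Z ∩ insert a (prd y a) = insert a (Z ∩ prd y a) := by
          rw [Finset.inter_insert_of_mem haZ]
        rw [e, sum_insert (by simp [ha])]
        have h1 := hF (insert a (Z ∩ prd y a)) (prd y a)
        have e1 : insert a (Z ∩ prd y a) ∩ prd y a = Z ∩ prd y a := by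
          rw [Finset.insert_inter_of_notMem ha, Finset.inter_assoc, Finset.inter_self]
        have e2 : insert a (Z ∩ prd y a) ∪ prd y a = insert a (prd y a) := by
          rw [Finset.insert_union, Finset.union_eq_right.2 Finset.inter_subset_right]
        rw [e1, e2] at h1
        have e3 : gr F y a = F (insert a (prd y a)) - F (prd y a) := rfl
        rw [e3]
        linarith
      · rw [Finset.inter_insert_of_notMem haZ]
        exact ih
  simpa using this

theorem abel_ge {F : Finset (Fin n) → ℤ} (y : Fin n → ℕ) (D : ℕ) (m : ℤ) (hD : ∀ v, y v ≤ D)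
    (h0 : m ≤ F ∅) (h1 : ∀ v, m ≤ F (insert v (prd y v))) :
    (D : ℤ) * (m - F ∅) ≤ ∑ v, gr F y v * (y v : ℤ) := by
  have main : ∀ θ : ℕ, θ ≤ D → (∀ v ∈ (univ : Finset (Fin n)), θ ≤ y v) →
      (θ : ℤ) * (F univ - F ∅) - (F ∅ - m) * ((D : ℤ) - θ) ≤
        ∑ v ∈ (univ : Finset (Fin n)), gr F y v * (y v : ℤ) := by
    apply init_ind (y := y) (p := fun s => ∀ θ : ℕ, θ ≤ D → (∀ v ∈ s, θ ≤ y v) →
      (θ : ℤ) * (F s - F ∅) - (F ∅ - m) * ((D : ℤ) - θ) ≤ ∑ v ∈ s, gr F y v * (y v : ℤ))
    · intro θ hθ _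
      simp only [sub_self, mul_zero, zero_sub, sum_empty]
      have : (0 : ℤ) ≤ (F ∅ - m) * ((D : ℤ) - θ) :=
        mul_nonneg (by linarith) (by have : (θ : ℤ) ≤ D := by exact_mod_cast hθ
                                     linarith)
      linarith
    · intro a ha _ hna ih θ hθ hv
      have ih' := ih (y a) (hD a) ha
      rw [sum_insert hna]
      have e3 : gr F y a = F (insert a (prd y a)) - F (prd y a) := rfl
      rw [e3]
      have hθa : (θ : ℤ) ≤ y a := by exact_mod_cast hv a (mem_insert_self _ _)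
      have h2 := h1 a
      have h3 : (0 : ℤ) ≤ ((y a : ℤ) - θ) * (F (insert a (prd y a)) - m) :=
        mul_nonneg (by linarith) (by linarith)
      nlinarith
  rcases Nat.eq_zero_or_pos n with hn | hn
  · subst hn
    have h2 : (D : ℤ) * (m - F ∅) ≤ 0 :=
      mul_nonpos_of_nonneg_of_nonpos (by positivity) (by linarith)
    simpa using h2
  · have := main 0 (Nat.zero_le _) (fun _ _ => Nat.zero_le _)
    simp only [Nat.cast_zero, zero_mul, zero_sub, sub_zero] at this
    linarith

/-- truncation to `{0, ..., D}` -/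
def clip (D : ℕ) (a : ℤ) : ℕ := min D a.toNat

/-- One step of the descent. -/
def step (F : Finset (Fin n) → ℤ) (D : ℕ) (y : Fin n → ℕ) : Fin n → ℕ :=
  fun v => clip D ((y v : ℤ) - gr F y v)

theorem step_le (F : Finset (Fin n) → ℤ) (D : ℕ) (y : Fin n → ℕ) (v : Fin n) :
    step F D y v ≤ D := min_le_left _ _

theorem clip_sq (D : ℕ) (a z : ℤ) (h0 : 0 ≤ z) (h1 : z ≤ D) :
    ((clip D a : ℤ) - z) ^ 2 ≤ (a - z) ^ 2 := by
  unfold clip
  push_cast
  rcases le_total a 0 with h | h
  · rw [Int.toNat_of_nonpos h]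
    simp only [Nat.cast_zero]
    rw [min_eq_right (by positivity)]
    nlinarith
  · rw [Int.toNat_of_nonneg h]
    rcases le_total (D : ℤ) a with h2 | h2
    · rw [min_eq_left h2]
      nlinarith
    · rw [min_eq_right h2]

/-- The iterates. -/
def iter (F : Finset (Fin n) → ℤ) (D : ℕ) : ℕ → Fin n → ℕ
  | 0 => fun _ => 0
  | t + 1 => step F D (iter F D t)

theorem iter_le (F : Finset (Fin n) → ℤ) (D t : ℕ) (v : Fin n) : iter F D t v ≤ D := by
  cases t with
  | zero => exact Nat.zero_le _
  | succ t => exact step_le _ _ _ _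

/-- the potential -/
def pot (D : ℕ) (Z : Finset (Fin n)) (y : Fin n → ℕ) : ℤ :=
  ∑ v, ((y v : ℤ) - (if v ∈ Z then (D : ℤ) else 0)) ^ 2

theorem pot_step {F : Finset (Fin n) → ℤ} (hF : SubMod F) (D G : ℕ) (y : Fin n → ℕ)
    (Z : Finset (Fin n)) (hD : ∀ v, y v ≤ D) (hG : ∑ v, gr F y v ^ 2 ≤ (G : ℤ)) (δ : ℤ)
    (h0 : F Z + δ ≤ F ∅) (h1 : ∀ v, F Z + δ ≤ F (insert v (prd y v))) :
    pot D Z (step F D y) ≤ pot D Z y - 2 * D * δ + G := by
  have k1 := abel_ge y D (F Z + δ) hD h0 h1
  have k2 := greedy_le hF y Z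
  have k3 : ∑ v, gr F y v * (if v ∈ Z then (D : ℤ) else 0) ≤ D * (F Z - F ∅) := by
    have : ∑ v, gr F y v * (if v ∈ Z then (D : ℤ) else 0) = (∑ v ∈ Z, gr F y v) * D := by
      simp only [mul_ite, mul_zero]
      rw [Finset.sum_ite_mem, Finset.univ_inter, Finset.sum_mul]
    rw [this, mul_comm]
    exact mul_le_mul_of_nonneg_left k2 (by positivity)
  have k4 : pot D Z (step F D y) ≤ ∑ v, ((y v : ℤ) - gr F y v -
      (if v ∈ Z then (D : ℤ) else 0)) ^ 2 := by
    apply Finset.sum_le_sum
    intro v _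
    apply clip_sq
    · split_ifs <;> simp
    · split_ifs <;> simp
  have k5 : ∑ v, ((y v : ℤ) - gr F y v - (if v ∈ Z then (D : ℤ) else 0)) ^ 2 =
      pot D Z y - 2 * (∑ v, gr F y v * (y v : ℤ) -
        ∑ v, gr F y v * (if v ∈ Z then (D : ℤ) else 0)) + ∑ v, gr F y v ^ 2 := by
    unfold pot
    rw [← Finset.sum_sub_distrib, Finset.mul_sum, ← Finset.sum_sub_distrib,
      ← Finset.sum_add_distrib]
    apply Finset.sum_congr rfl
    intro v _
    ring
  have k6 : (D : ℤ) * (F Z + δ - F ∅) - D * (F Z - F ∅) = D * δ := by ring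
  linarith

theorem engine {F : Finset (Fin n) → ℤ} (hF : SubMod F) (D G T : ℕ) (δ : ℤ)
    (hG : ∀ y : Fin n → ℕ, ∑ v, gr F y v ^ 2 ≤ (G : ℤ))
    (hT : (n : ℤ) * D ^ 2 + T * G < 2 * T * D * δ) (c : ℤ)
    (h0 : c ≤ F ∅) (h1 : ∀ t < T, ∀ v, c ≤ F (insert v (prd (iter F D t) v)))
    (Z : Finset (Fin n)) : c < F Z + δ := by
  by_contra hc
  push Not at hc
  have key : ∀ t ≤ T, pot D Z (iter F D t) ≤ n * D ^ 2 - t * (2 * D * δ - G) := by
    intro t
    induction t with
    | zero =>
      intro _
      simp only [Nat.cast_zero, zero_mul, sub_zero]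
      unfold pot iter
      have : ∀ v ∈ (univ : Finset (Fin n)),
          (((0 : ℕ) : ℤ) - (if v ∈ Z then (D : ℤ) else 0)) ^ 2 ≤ (D : ℤ) ^ 2 := by
        intro v _
        split_ifs
        · simp
        · simp
      refine (Finset.sum_le_sum this).trans ?_
      simp
    | succ t ih =>
      intro ht
      have ih' := ih (by omega)
      have := pot_step hF D G (iter F D t) Z (iter_le F D t) (hG _) δ (hc.trans h0)
        (fun v => hc.trans (h1 t (by omega) v))
      have e : iter F D (t + 1) = step F D (iter F D t) := rfl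
      rw [e]
      push_cast
      linarith
  have h2 := key T le_rfl
  have h3 : (0 : ℤ) ≤ pot D Z (iter F D T) := Finset.sum_nonneg fun v _ => sq_nonneg _
  nlinarith

end Pool.Agent.TH660.SC
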