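import Pool.Agent.TH660.SC.Engine
import Pool.Agent.H663R2.SkewC

/-!
# The covering numbers of skew-supermodular demands: greedy computation, marginals
-/

namespace Pool.Agent.TH660.SC

open Finset Pool.Agent.H663R2.Skew

variable {n : ℕ}

/-- The greedy cover: scan the elements and delete the elements of `X` which are not needed. -/
def grdy (test : Finset (Fin n) → Bool) (X : Finset (Fin n)) (l : List (Fin n)) :
    Finset (Fin n) :=
  l.foldl (fun B v => if decide (v ∈ X) && test (B.erase v) then B.erase v else B) univ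

theorem grdy_inv {q : Finset (Fin n) → ℤ} {test : Finset (Fin n) → Bool}
    (htest : ∀ B, test B = true ↔ Cov univ q B) (hU : Cov univ q univ) (X : Finset (Fin n)) :
    ∀ (l : List (Fin n)), Cov univ q (grdy test X l) ∧ univ \ X ⊆ grdy test X l ∧
      ∀ v ∈ l, v ∈ grdy test X l → v ∈ X → ¬ Cov univ q ((grdy test X l).erase v) := by
  intro l
  induction l using List.reverseRecOn with
  | nil =>
    refine ⟨hU, subset_univ _, ?_⟩
    intro v hv
    simp at hv
  | append_singleton l a ih =>
    obtain ⟨h1, h2, h3⟩ := ih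
    have e : grdy test X (l ++ [a]) =
        if decide (a ∈ X) && test ((grdy test X l).erase a) then (grdy test X l).erase a
        else grdy test X l := by
      unfold grdy
      rw [List.foldl_append]
      rfl
    rw [e]
    split_ifs with h
    · rw [Bool.and_eq_true, decide_eq_true_iff, htest] at h
      refine ⟨h.2, ?_, ?_⟩
      · intro x hx
        rw [mem_erase]
        refine ⟨?_, h2 hx⟩
        rintro rfl
        exact (mem_sdiff.1 hx).2 h.1
      · intro v hv hvB hvX
        rw [List.mem_append, List.mem_singleton] at hv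
        rcases hv with hv | rfl
        · intro hc
          apply h3 v hv (mem_of_mem_erase hvB) hvX
          exact hc.mono (Finset.erase_subset_erase _ (Finset.erase_subset _ _))
        · exact absurd rfl (mem_erase.1 hvB).1
    · refine ⟨h1, h2, ?_⟩
      intro v hv hvB hvX
      rw [List.mem_append, List.mem_singleton] at hv
      rcases hv with hv | rfl
      · exact h3 v hv hvB hvX
      · intro hc
        apply h
        rw [Bool.and_eq_true, decide_eq_true_iff, htest]
        exact ⟨hvX, hc⟩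

theorem grdy_card {q : Finset (Fin n) → ℤ} (hq : SkewOn univ q) {test : Finset (Fin n) → Bool}
    (htest : ∀ B, test B = true ↔ Cov univ q B) (hU : Cov univ q univ) (X : Finset (Fin n)) :
    (grdy test X (List.finRange n) ∩ X).card = low univ q X := by
  obtain ⟨h1, h2, h3⟩ := grdy_inv htest hU X (List.finRange n)
  refine (min_of_tight hq (subset_univ _) h1 h2 ?_).1
  intro b hb
  obtain ⟨hb1, hb2⟩ := mem_inter.1 hb
  exact tight_of_not_erase h1 hb1 (h3 b (List.mem_finRange b) hb1 hb2)

theorem low_mono {q : Finset (Fin n) → ℤ} (hU : Cov univ q univ) {X Y : Finset (Fin n)}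
    (h : X ⊆ Y) : low univ q X ≤ low univ q Y := by
  obtain ⟨B, hBU, hB, hc⟩ := low_mem hU Y
  rw [← hc]
  exact (low_le hBU hB X).trans (card_le_card (inter_subset_inter_left h))

theorem low_insert {q : Finset (Fin n) → ℤ} (hU : Cov univ q univ) (X : Finset (Fin n))
    (v : Fin n) : low univ q (insert v X) ≤ low univ q X + 1 := by
  obtain ⟨B, hBU, hB, hc⟩ := low_mem hU X
  rw [← hc]
  refine (low_le hBU hB _).trans ?_
  have : B ∩ insert v X ⊆ insert v (B ∩ X) := by
    intro x hx
    simp only [mem_inter, mem_insert] at hx ⊢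
    tauto
  exact (card_le_card this).trans (card_insert_le _ _)

/-- The function to be maximised. -/
noncomputable def Hf (q₁ q₂ : Finset (Fin n) → ℤ) (X : Finset (Fin n)) : ℕ :=
  low univ q₁ X + low univ q₂ (univ \ X)

theorem subMod_Hf {q₁ q₂ : Finset (Fin n) → ℤ} (h₁ : SkewOn univ q₁) (h₂ : SkewOn univ q₂)
    (hU₁ : Cov univ q₁ univ) (hU₂ : Cov univ q₂ univ) :
    SubMod (fun X => -(Hf q₁ q₂ X : ℤ)) := by
  intro X Y
  have a := low_supermodular h₁ hU₁ (subset_univ X) (subset_univ Y)
  have b := low_supermodular h₂ hU₂ (subset_univ (univ \ X)) (subset_univ (univ \ Y))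
  have e1 : (univ \ X) ∩ (univ \ Y) = univ \ (X ∪ Y) := by
    ext x; simp
  have e2 : (univ \ X) ∪ (univ \ Y) = univ \ (X ∩ Y) := by
    ext x; simp only [mem_union, mem_sdiff, mem_univ, true_and, mem_inter]; tauto
  rw [e1, e2] at b
  unfold Hf
  push_cast
  omega

theorem gr_Hf_sq {q₁ q₂ : Finset (Fin n) → ℤ} (hU₁ : Cov univ q₁ univ)
    (hU₂ : Cov univ q₂ univ) (y : Fin n → ℕ) :
    ∑ v, gr (fun X => -(Hf q₁ q₂ X : ℤ)) y v ^ 2 ≤ ((n : ℕ) : ℤ) := by
  have : ∀ v ∈ (univ : Finset (Fin n)), gr (fun X => -(Hf q₁ q₂ X : ℤ)) y v ^ 2 ≤ 1 := by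
    intro v _
    unfold gr
    set P := prd y v
    have a1 := low_mono hU₁ (subset_insert v P)
    have a2 := low_insert hU₁ P v
    have b1 : low univ q₂ (univ \ insert v P) ≤ low univ q₂ (univ \ P) :=
      low_mono hU₂ (sdiff_subset_sdiff (Subset.refl _) (subset_insert v P))
    have b2 : low univ q₂ (univ \ P) ≤ low univ q₂ (univ \ insert v P) + 1 := by
      refine (low_mono hU₂ ?_).trans (low_insert hU₂ _ v)
      intro x hx
      simp only [mem_insert, mem_sdiff, mem_univ, true_and] at hx ⊢
      tauto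
    have c1 : -1 ≤ -(Hf q₁ q₂ (insert v P) : ℤ) - -(Hf q₁ q₂ P : ℤ) := by
      unfold Hf; push_cast; omega
    have c2 : -(Hf q₁ q₂ (insert v P) : ℤ) - -(Hf q₁ q₂ P : ℤ) ≤ 1 := by
      unfold Hf; push_cast; omega
    nlinarith
  refine (Finset.sum_le_sum this).trans ?_
  simp

/-- One step of the descent, in natural numbers. -/
def nstep (H : Finset (Fin n) → ℕ) (D : ℕ) (y : Fin n → ℕ) : Fin n → ℕ :=
  fun v => min D (y v + H (insert v (prd y v)) - H (prd y v))

theorem nstep_eq (H : Finset (Fin n) → ℕ) (D : ℕ) (y : Fin n → ℕ) :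
    nstep H D y = step (fun X => -(H X : ℤ)) D y := by
  funext v
  unfold nstep step clip gr
  dsimp only
  omega

theorem iter_eq (H : Finset (Fin n) → ℕ) (D : ℕ) (t : ℕ) :
    iter (fun X => -(H X : ℤ)) D t = (nstep H D)^[t] (fun _ => 0) := by
  induction t with
  | zero => rfl
  | succ t ih =>
    rw [Function.iterate_succ_apply', ← ih, nstep_eq]
    rfl

/-- All the values met at the point `y` are at most `c`. -/
def okAt (H : Finset (Fin n) → ℕ) (c : ℕ) (y : Fin n → ℕ) : Prop :=
  ∀ v, H (insert v (prd y v)) ≤ c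

theorem all_le_iff {H : Finset (Fin n) → ℕ} (hH : SubMod fun X => -(H X : ℤ))
    (G D T : ℕ) (hG : ∀ y : Fin n → ℕ, ∑ v, gr (fun X => -(H X : ℤ)) y v ^ 2 ≤ (G : ℤ))
    (hT : n * D ^ 2 + T * G < 2 * T * D) (c : ℕ) :
    (∀ X, H X ≤ c) ↔ H ∅ ≤ c ∧ ∀ t < T, okAt H c ((nstep H D)^[t] fun _ => 0) := by
  constructor
  · intro h
    exact ⟨h _, fun t _ v => h _⟩
  · rintro ⟨h0, h1⟩ X
    have := engine hH D G T 1 hG (by rw [mul_one]; exact_mod_cast hT) (-(c : ℤ))
      (by simpa using h0) (by
        intro t ht v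
        rw [iter_eq]
        have := h1 t ht v
        simpa using this) X
    have h2 : -(c : ℤ) < -(H X : ℤ) + 1 := this
    omega

end Pool.Agent.TH660.SC
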