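import Pool.Agent.TH660.SC.Clos

/-!
# Strongly polynomial minimisation of submodular functions: one round
-/

namespace Pool.Agent.TH660.SC

open Finset

variable {n : ℕ}

/-- The state: a set of elements known to be in the minimisers, blocks, implications. -/
structure St (n : ℕ) where
  /-- the fixed part -/
  I : Finset (Fin n)
  /-- the blocks -/
  blk : Fin n → Finset (Fin n)
  /-- the implications -/
  R : Fin n → Finset (Fin n)

/-- The current function. -/
def cur (f : Finset (Fin n) → ℤ) (s : St n) (X : Finset (Fin n)) : ℤ := f (s.I ∪ cl s.blk X)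

/-- The invariant. -/
structure Inv (f : Finset (Fin n) → ℤ) (s : St n) : Prop where
  disj : ∀ u v, u ≠ v → Disjoint (s.blk u) (s.blk v)
  disjI : ∀ v, Disjoint s.I (s.blk v)
  po : IsPO s.R
  dead : ∀ d, s.blk d = ∅ → s.R d = {d} ∧ ∀ u, d ∈ s.R u → u = d
  minp : ∃ M, ∀ Z, cur f s M ≤ f Z
  valid : ∀ M, (∀ Z, cur f s M ≤ cur f s Z) → Closed s.R M

theorem isPO_single : IsPO (fun v : Fin n => ({v} : Finset (Fin n))) :=
  ⟨fun v => mem_singleton_self v, fun u v h => by rw [mem_singleton.1 h],
    fun u v h _ => mem_singleton.1 h⟩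

theorem closed_single (M : Finset (Fin n)) : Closed (fun v : Fin n => ({v} : Finset (Fin n))) M :=
  fun v hv u hu => by rw [mem_singleton.1 hu]; exact hv

theorem cl_inter {b : Fin n → Finset (Fin n)} (h : ∀ u v, u ≠ v → Disjoint (b u) (b v))
    (X Y : Finset (Fin n)) : cl b (X ∩ Y) = cl b X ∩ cl b Y := by
  ext u
  simp only [mem_cl, mem_inter]
  constructor
  · rintro ⟨v, ⟨h1, h2⟩, h3⟩
    exact ⟨⟨v, h1, h3⟩, ⟨v, h2, h3⟩⟩
  · rintro ⟨⟨v, h1, h3⟩, ⟨w, h2, h4⟩⟩
    have : v = w := by
      by_contra hne
      exact disjoint_left.1 (h v w hne) h3 h4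
    subst this
    exact ⟨v, ⟨h1, h2⟩, h3⟩

theorem cur_sub {f : Finset (Fin n) → ℤ} (hf : SubMod f) {s : St n}
    (hd : ∀ u v, u ≠ v → Disjoint (s.blk u) (s.blk v)) : SubMod (cur f s) := by
  intro X Y
  unfold cur
  rw [cl_inter hd, cl_union]
  have := hf (s.I ∪ cl s.blk X) (s.I ∪ cl s.blk Y)
  have e1 : (s.I ∪ cl s.blk X) ∩ (s.I ∪ cl s.blk Y) = s.I ∪ (cl s.blk X ∩ cl s.blk Y) := by
    rw [← union_inter_distrib_left]
  have e2 : (s.I ∪ cl s.blk X) ∪ (s.I ∪ cl s.blk Y) = s.I ∪ (cl s.blk X ∪ cl s.blk Y) := by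
    ext x; simp only [mem_union]; tauto
  rwa [e1, e2] at this

theorem cur_dead (f : Finset (Fin n) → ℤ) {s : St n} {d : Fin n} (hd : s.blk d = ∅)
    (X : Finset (Fin n)) : cur f s (insert d X) = cur f s X := by
  unfold cur
  congr 2
  ext u
  simp only [mem_cl, mem_insert]
  constructor
  · rintro ⟨v, rfl | hv, h⟩
    · rw [hd] at h; simp at h
    · exact ⟨v, hv, h⟩
  · rintro ⟨v, hv, h⟩
    exact ⟨v, Or.inr hv, h⟩

theorem ext_dead {g : Finset (Fin n) → ℤ} {R : Fin n → Finset (Fin n)} {d : Fin n}
    (hg : ∀ X, g (insert d X) = g X) (h1 : R d = {d}) (h2 : ∀ u, d ∈ R u → u = d)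
    (X : Finset (Fin n)) : ext g R (insert d X) = ext g R X := by
  by_cases hd : d ∈ X
  · rw [insert_eq_of_mem hd]
  have e1 : cl R (insert d X) = insert d (cl R X) := by
    ext u
    simp only [mem_cl, mem_insert]
    constructor
    · rintro ⟨v, rfl | hv, h⟩
      · rw [h1] at h
        exact Or.inl (mem_singleton.1 h)
      · exact Or.inr ⟨v, hv, h⟩
    · rintro (rfl | ⟨v, hv, h⟩)
      · exact ⟨u, Or.inl rfl, by rw [h1]; simp⟩
      · exact ⟨v, Or.inr hv, h⟩
  have hdc : d ∉ cl R X := by
    intro h
    obtain ⟨v, hv, h⟩ := mem_cl.1 h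
    exact hd (h2 v h ▸ hv)
  have e2 : insert d (cl R X) \ insert d X = cl R X \ X := by
    ext u
    simp only [mem_sdiff, mem_insert]
    constructor
    · rintro ⟨h | h, h'⟩
      · exact absurd (Or.inl h) h'
      · exact ⟨h, fun hx => h' (Or.inr hx)⟩
    · rintro ⟨h, h'⟩
      refine ⟨Or.inr h, ?_⟩
      rintro (rfl | h3)
      · exact hdc h
      · exact h' h3
  unfold ext
  rw [e1, e2, hg]

theorem Phi_dead {g : Finset (Fin n) → ℤ} {R : Fin n → Finset (Fin n)} {d : Fin n}
    (hg : ∀ X, g (insert d X) = g X) (h1 : R d = {d}) (h2 : ∀ u, d ∈ R u → u = d)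
    (A B X : Finset (Fin n)) : Phi g R A B (insert d X) = Phi g R A B X := by
  unfold Phi
  by_cases hd : d ∈ B
  · have e : (insert d X ∪ A) ∩ B = insert d ((X ∪ A) ∩ B) := by
      ext x; simp only [mem_inter, mem_union, mem_insert]
      constructor
      · rintro ⟨(h | h) | h, hB⟩ <;> tauto
      · rintro (rfl | ⟨h, hB⟩)
        · exact ⟨Or.inl (Or.inl rfl), hd⟩
        · tauto
    rw [e, ext_dead hg h1 h2]
  · have e : (insert d X ∪ A) ∩ B = (X ∪ A) ∩ B := by
      ext x; simp only [mem_inter, mem_union, mem_insert]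
      constructor
      · rintro ⟨(h | h) | h, hB⟩
        · exact absurd hB (h ▸ hd)
        · tauto
        · tauto
      · tauto
    rw [e]

theorem Phi_memA {g : Finset (Fin n) → ℤ} {R : Fin n → Finset (Fin n)} {d : Fin n}
    {A : Finset (Fin n)} (hd : d ∈ A) (B X : Finset (Fin n)) :
    Phi g R A B (insert d X) = Phi g R A B X := by
  unfold Phi
  have e : (insert d X ∪ A) ∩ B = (X ∪ A) ∩ B := by
    ext x; simp only [mem_inter, mem_union, mem_insert]
    constructor
    · rintro ⟨(rfl | h) | h, hB⟩ <;> tauto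
    · tauto
  rw [e]

theorem Phi_notMemB {g : Finset (Fin n) → ℤ} {R : Fin n → Finset (Fin n)} {d : Fin n}
    {B : Finset (Fin n)} (hd : d ∉ B) (A X : Finset (Fin n)) :
    Phi g R A B (insert d X) = Phi g R A B X := by
  unfold Phi
  have e : (insert d X ∪ A) ∩ B = (X ∪ A) ∩ B := by
    ext x; simp only [mem_inter, mem_union, mem_insert]
    constructor
    · rintro ⟨(h | h) | h, hB⟩
      · exact absurd hB (h ▸ hd)
      · tauto
      · tauto
    · tauto
  rw [e]

theorem dual_dead {F : Finset (Fin n) → ℤ} {d : Fin n} (h : ∀ X, F (insert d X) = F X)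
    (D T : ℕ) : dual F D T d = 0 := by
  unfold dual
  apply Finset.sum_eq_zero
  intro t _
  unfold gr
  rw [h, sub_self]

/-- the parameters -/
def parD (n η : ℕ) : ℕ := 12 * n ^ 4 * η
/-- the parameters -/
def parT (n : ℕ) : ℕ := 36 * n ^ 6 + 1
/-- the parameters -/
def parW (n η : ℕ) : ℕ := n * parD n η ^ 2 + parT n * (4 * n ^ 3 * η ^ 2)

theorem par_lt {n η : ℕ} (hn : 0 < n) (hη : 0 < η) :
    3 * n * parW n η < 2 * parD n η * parT n * η := by
  unfold parW parD parT
  have h1 : 0 < n ^ 4 * η ^ 2 := by positivity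
  nlinarith [h1]

/-- size of a marginal -/
def eta (g : Finset (Fin n) → ℤ) (R : Fin n → Finset (Fin n)) (v : Fin n) : ℤ :=
  max (up g R v) (-(lo g R v))

/-- the first element with a property -/
def pick (p : Fin n → Bool) : Option (Fin n) := ((List.finRange n).filter p).head?

theorem pick_some {p : Fin n → Bool} {w : Fin n} (h : pick p = some w) : p w = true := by
  unfold pick at h
  have := List.mem_of_mem_head? (h ▸ rfl : w ∈ ((List.finRange n).filter p).head?)
  exact (List.mem_filter.1 this).2

theorem pick_none {p : Fin n → Bool} (h : pick p = none) (w : Fin n) : p w = false := by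
  unfold pick at h
  rw [List.head?_eq_none_iff, List.filter_eq_nil_iff] at h
  simpa using h w (List.mem_finRange w)

section Cases

variable {f : Finset (Fin n) → ℤ} {s : St n}

/-- fix an element in -/
def fixIn (s : St n) (w : Fin n) : St n :=
  ⟨s.I ∪ s.blk w, fun v => if v = w then ∅ else s.blk v, fun v => {v}⟩

/-- fix an element out -/
def fixOut (s : St n) (w : Fin n) : St n :=
  ⟨s.I, fun v => if v = w then ∅ else s.blk v, fun v => {v}⟩

/-- merge two blocks -/
def merge (s : St n) (a b : Fin n) : St n :=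
  ⟨s.I, fun v => if v = b then ∅ else if v = a then s.blk a ∪ s.blk b else s.blk v, fun v => {v}⟩

/-- add an implication -/
def addArc (s : St n) (a b : Fin n) : St n :=
  ⟨s.I, s.blk, fun v => if a ∈ s.R v then s.R v ∪ s.R b else s.R v⟩

/-- number of nonempty blocks -/
def alive (s : St n) : ℕ := (univ.filter fun v => s.blk v ≠ ∅).card

/-- number of implications -/
def arcs (s : St n) : ℕ := ∑ v, (s.R v).card

/-- the measure -/
def meas (s : St n) : ℕ := alive s * (n ^ 2 + 1) + (n ^ 2 - arcs s)

theorem arcs_le (s : St n) : arcs s ≤ n ^ 2 := by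
  unfold arcs
  have : ∀ v ∈ (univ : Finset (Fin n)), (s.R v).card ≤ n := fun v _ => by
    have := card_le_univ (s.R v)
    simpa using this
  refine (Finset.sum_le_sum this).trans ?_
  simp [sq]

theorem meas_lt_of_alive {s s' : St n} (h : alive s' < alive s) : meas s' < meas s := by
  unfold meas
  have h1 : alive s' * (n ^ 2 + 1) + (n ^ 2 + 1) ≤ alive s * (n ^ 2 + 1) := by
    have : (alive s' + 1) * (n ^ 2 + 1) ≤ alive s * (n ^ 2 + 1) := Nat.mul_le_mul_right _ h
    linarith
  omega

theorem curMin_of (h : Inv f s) {M : Finset (Fin n)} (hM : ∀ Z, cur f s M ≤ f Z) :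
    ∀ Z, cur f s M ≤ cur f s Z := fun _ => hM _

theorem fixIn_inv (h : Inv f s) {w : Fin n}
    (hw : ∀ M, (∀ Z, cur f s M ≤ cur f s Z) → w ∈ M) : Inv f (fixIn s w) := by
  refine ⟨?_, ?_, isPO_single, ?_, ?_, fun M _ => closed_single M⟩
  · intro u v huv
    change Disjoint (if u = w then ∅ else s.blk u) (if v = w then ∅ else s.blk v)
    split_ifs <;> simp [h.disj u v huv]
  · intro v
    change Disjoint (s.I ∪ s.blk w) (if v = w then ∅ else s.blk v)
    split_ifs with hv
    · simp
    · rw [disjoint_union_left]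
      exact ⟨h.disjI v, h.disj w v (Ne.symm hv)⟩
  · intro d _
    exact ⟨rfl, fun u hu => (mem_singleton.1 hu).symm⟩
  · obtain ⟨M, hM⟩ := h.minp
    have hwM := hw M (curMin_of h hM)
    refine ⟨M, fun Z => ?_⟩
    have : cur f (fixIn s w) M = cur f s M := by
      unfold cur
      congr 1
      ext u
      simp only [mem_union, mem_cl, fixIn]
      constructor
      · rintro ((h1 | h1) | ⟨v, hv, h1⟩)
        · exact Or.inl h1
        · exact Or.inr ⟨w, hwM, h1⟩
        · split_ifs at h1 with hvw
          · simp at h1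
          · exact Or.inr ⟨v, hv, h1⟩
      · rintro (h1 | ⟨v, hv, h1⟩)
        · exact Or.inl (Or.inl h1)
        · by_cases hvw : v = w
          · subst hvw
            exact Or.inl (Or.inr h1)
          · exact Or.inr ⟨v, hv, by rw [if_neg hvw]; exact h1⟩
    rw [this]
    exact hM Z

theorem fixIn_alive {w : Fin n} (hw : s.blk w ≠ ∅) : alive (fixIn s w) < alive s := by
  unfold alive fixIn
  apply card_lt_card
  refine ⟨?_, ?_⟩
  · intro v hv
    simp only [mem_filter, mem_univ, true_and] at hv ⊢
    split_ifs at hv with h1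
    · exact absurd rfl hv
    · exact hv
  · intro hsub
    have := hsub (show w ∈ univ.filter (fun v => s.blk v ≠ ∅) by simp [hw])
    simp at this

theorem fixOut_inv (h : Inv f s) {w : Fin n}
    (hw : ∀ M, (∀ Z, cur f s M ≤ cur f s Z) → w ∉ M) : Inv f (fixOut s w) := by
  refine ⟨?_, ?_, isPO_single, ?_, ?_, fun M _ => closed_single M⟩
  · intro u v huv
    change Disjoint (if u = w then ∅ else s.blk u) (if v = w then ∅ else s.blk v)
    split_ifs <;> simp [h.disj u v huv]
  · intro v
    change Disjoint s.I (if v = w then ∅ else s.blk v)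
    split_ifs with hv
    · simp
    · exact h.disjI v
  · intro d _
    exact ⟨rfl, fun u hu => (mem_singleton.1 hu).symm⟩
  · obtain ⟨M, hM⟩ := h.minp
    have hwM := hw M (curMin_of h hM)
    refine ⟨M, fun Z => ?_⟩
    have : cur f (fixOut s w) M = cur f s M := by
      unfold cur
      congr 1
      ext u
      simp only [mem_union, mem_cl, fixOut]
      constructor
      · rintro (h1 | ⟨v, hv, h1⟩)
        · exact Or.inl h1
        · split_ifs at h1 with hvw
          · simp at h1
          · exact Or.inr ⟨v, hv, h1⟩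
      · rintro (h1 | ⟨v, hv, h1⟩)
        · exact Or.inl h1
        · have hvw : v ≠ w := fun e => hwM (e ▸ hv)
          exact Or.inr ⟨v, hv, by rw [if_neg hvw]; exact h1⟩
    rw [this]
    exact hM Z

theorem fixOut_alive {w : Fin n} (hw : s.blk w ≠ ∅) : alive (fixOut s w) < alive s :=
  fixIn_alive (s := s) hw

theorem merge_inv (h : Inv f s) {a b : Fin n} (hab : a ≠ b)
    (hw : ∀ M, (∀ Z, cur f s M ≤ cur f s Z) → (a ∈ M ↔ b ∈ M)) : Inv f (merge s a b) := by
  refine ⟨?_, ?_, isPO_single, ?_, ?_, fun M _ => closed_single M⟩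
  · intro u v huv
    change Disjoint (if u = b then ∅ else if u = a then s.blk a ∪ s.blk b else s.blk u)
      (if v = b then ∅ else if v = a then s.blk a ∪ s.blk b else s.blk v)
    by_cases hu : u = b
    · simp [hu]
    by_cases hv : v = b
    · simp [hv]
    rw [if_neg hu, if_neg hv]
    by_cases hu' : u = a <;> by_cases hv' : v = a
    · exact absurd (hu'.trans hv'.symm) huv
    · rw [if_pos hu', if_neg hv', disjoint_union_left]
      exact ⟨h.disj a v (Ne.symm hv'), h.disj b v (Ne.symm hv)⟩
    · rw [if_neg hu', if_pos hv', disjoint_union_right]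
      exact ⟨h.disj u a hu', h.disj u b hu⟩
    · rw [if_neg hu', if_neg hv']
      exact h.disj u v huv
  · intro v
    change Disjoint s.I (if v = b then ∅ else if v = a then s.blk a ∪ s.blk b else s.blk v)
    split_ifs
    · simp
    · rw [disjoint_union_right]
      exact ⟨h.disjI a, h.disjI b⟩
    · exact h.disjI v
  · intro d _
    exact ⟨rfl, fun u hu => (mem_singleton.1 hu).symm⟩
  · obtain ⟨M, hM⟩ := h.minp
    have hwM := hw M (curMin_of h hM)
    refine ⟨M, fun Z => ?_⟩
    have : cur f (merge s a b) M = cur f s M := by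
      unfold cur
      congr 1
      ext u
      simp only [mem_union, mem_cl, merge]
      constructor
      · rintro (h1 | ⟨v, hv, h1⟩)
        · exact Or.inl h1
        · split_ifs at h1 with h2 h3
          · simp at h1
          · subst h3
            rcases mem_union.1 h1 with h1 | h1
            · exact Or.inr ⟨v, hv, h1⟩
            · exact Or.inr ⟨b, hwM.1 hv, h1⟩
          · exact Or.inr ⟨v, hv, h1⟩
      · rintro (h1 | ⟨v, hv, h1⟩)
        · exact Or.inl h1
        · by_cases hvb : v = b
          · subst hvb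
            refine Or.inr ⟨a, hwM.2 hv, ?_⟩
            rw [if_neg hab, if_pos rfl]
            exact mem_union_right _ h1
          · by_cases hva : v = a
            · subst hva
              refine Or.inr ⟨v, hv, ?_⟩
              rw [if_neg hab, if_pos rfl]
              exact mem_union_left _ h1
            · exact Or.inr ⟨v, hv, by rw [if_neg hvb, if_neg hva]; exact h1⟩
    rw [this]
    exact hM Z

theorem merge_alive {a b : Fin n} (ha : s.blk a ≠ ∅) (hb : s.blk b ≠ ∅) :
    alive (merge s a b) < alive s := by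
  unfold alive merge
  apply card_lt_card
  refine ⟨?_, ?_⟩
  · intro v hv
    simp only [mem_filter, mem_univ, true_and] at hv ⊢
    split_ifs at hv with h1 h2
    · exact absurd rfl hv
    · rw [h2]; exact ha
    · exact hv
  · intro hsub
    have := hsub (show b ∈ univ.filter (fun v => s.blk v ≠ ∅) by simp [hb])
    simp at this

theorem addArc_inv (h : Inv f s) {a b : Fin n} (ha : s.blk a ≠ ∅) (hb : s.blk b ≠ ∅)
    (hba : a ∉ s.R b) (hw : ∀ M, (∀ Z, cur f s M ≤ cur f s Z) → a ∈ M → b ∈ M) :
    Inv f (addArc s a b) := by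
  have po := h.po
  refine ⟨h.disj, h.disjI, ⟨?_, ?_, ?_⟩, ?_, h.minp, ?_⟩
  · intro v
    change v ∈ if a ∈ s.R v then s.R v ∪ s.R b else s.R v
    split_ifs
    · exact mem_union_left _ (po.refl v)
    · exact po.refl v
  · intro u v huv x hx
    change u ∈ if a ∈ s.R v then s.R v ∪ s.R b else s.R v at huv
    change x ∈ if a ∈ s.R u then s.R u ∪ s.R b else s.R u at hx
    change x ∈ if a ∈ s.R v then s.R v ∪ s.R b else s.R v
    by_cases hv : a ∈ s.R v
    · rw [if_pos hv] at huv ⊢
      rcases mem_union.1 huv with huv | huv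
      · have hsub := po.trans u v huv
        split_ifs at hx
        · rcases mem_union.1 hx with hx | hx
          · exact mem_union_left _ (hsub hx)
          · exact mem_union_right _ hx
        · exact mem_union_left _ (hsub hx)
      · have hsub := po.trans u b huv
        split_ifs at hx
        · rcases mem_union.1 hx with hx | hx
          · exact mem_union_right _ (hsub hx)
          · exact mem_union_right _ hx
        · exact mem_union_right _ (hsub hx)
    · rw [if_neg hv] at huv ⊢
      have hsub := po.trans u v huv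
      have hau : a ∉ s.R u := fun h1 => hv (hsub h1)
      rw [if_neg hau] at hx
      exact hsub hx
  · intro u v huv hvu
    change u ∈ if a ∈ s.R v then s.R v ∪ s.R b else s.R v at huv
    change v ∈ if a ∈ s.R u then s.R u ∪ s.R b else s.R u at hvu
    have key : ∀ x y : Fin n, (x ∈ s.R y) → a ∈ s.R x → y ∈ s.R b → False := by
      intro x y hxy hax hyb
      exact hba (po.trans _ _ hyb (po.trans _ _ hxy hax))
    split_ifs at huv hvu with h1 h2 h2
    · rcases mem_union.1 huv with huv | huv <;> rcases mem_union.1 hvu with hvu | hvu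
      · exact po.anti u v huv hvu
      · exact absurd (po.trans _ _ hvu h1) hba
      · exact absurd (po.trans _ _ huv h2) hba
      · exact absurd (po.trans _ _ hvu h1) hba
    · rcases mem_union.1 huv with huv | huv
      · exact po.anti u v huv hvu
      · exact absurd (po.trans _ _ (po.trans _ _ huv hvu) h1) hba
    · rcases mem_union.1 hvu with hvu | hvu
      · exact po.anti u v huv hvu
      · exact absurd (po.trans _ _ (po.trans _ _ hvu huv) h2) hba
    · exact po.anti u v huv hvu
  · intro d hd
    obtain ⟨d1, d2⟩ := h.dead d hd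
    have hda : a ≠ d := fun e => ha (e ▸ hd)
    have hdb : b ≠ d := fun e => hb (e ▸ hd)
    refine ⟨?_, ?_⟩
    · change (if a ∈ s.R d then s.R d ∪ s.R b else s.R d) = {d}
      rw [if_neg, d1]
      rw [d1]
      simpa using hda
    · intro u hu
      change d ∈ if a ∈ s.R u then s.R u ∪ s.R b else s.R u at hu
      split_ifs at hu
      · rcases mem_union.1 hu with hu | hu
        · exact d2 u hu
        · exact absurd (d2 b hu) hdb
      · exact d2 u hu
  · intro M hM v hv x hx
    have hc := h.valid M hM
    change x ∈ if a ∈ s.R v then s.R v ∪ s.R b else s.R v at hx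
    split_ifs at hx with h1
    · rcases mem_union.1 hx with hx | hx
      · exact hc v hv hx
      · exact hc b (hw M hM (hc v hv h1)) hx
    · exact hc v hv hx

theorem addArc_meas (h : Inv f s) {a b : Fin n} (hab : b ∉ s.R a) :
    meas (addArc s a b) < meas s := by
  have h1 : arcs s < arcs (addArc s a b) := by
    unfold arcs addArc
    apply Finset.sum_lt_sum
    · intro v _
      dsimp only
      split_ifs
      · exact card_le_card subset_union_left
      · exact le_rfl
    · refine ⟨a, mem_univ _, ?_⟩
      dsimp only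
      rw [if_pos (h.po.refl a)]
      apply card_lt_card
      exact ⟨subset_union_left, fun hsub => hab (hsub (mem_union_right _ (h.po.refl b)))⟩
  have h2 := arcs_le (addArc s a b)
  have h3 : alive (addArc s a b) = alive s := rfl
  unfold meas
  rw [h3]
  omega

/-- add an implication, or merge -/
def arc (s : St n) (a b : Fin n) : St n := if a ∈ s.R b then merge s a b else addArc s a b

theorem arc_ok (h : Inv f s) {a b : Fin n} (ha : s.blk a ≠ ∅) (hb : s.blk b ≠ ∅)
    (hab : b ∉ s.R a) (hw : ∀ M, (∀ Z, cur f s M ≤ cur f s Z) → a ∈ M → b ∈ M) :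
    Inv f (arc s a b) ∧ meas (arc s a b) < meas s := by
  unfold arc
  split_ifs with hc
  · have hne : a ≠ b := by
      rintro rfl
      exact hab (h.po.refl a)
    exact ⟨merge_inv h hne fun M hM => ⟨hw M hM, fun hbM => h.valid M hM b hbM hc⟩,
      meas_lt_of_alive (merge_alive ha hb)⟩
  · exact ⟨addArc_inv h ha hb hc hw, addArc_meas h hab⟩

end Cases

end Pool.Agent.TH660.SC
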